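import Pool.Agent.Helper12.TQ.Elt

set_option autoImplicit false
set_option linter.unusedSectionVars false
set_option linter.unusedVariables false
set_option linter.unusedSimpArgs false

/-!
# Assembly for `q < p + l`
-/

noncomputable section

namespace Helper12.TQ

open Helper25.KW Helper55.KE Helper11.CT Helper55.Q2

/-- all signs equal -/
def Spc (cs : Bool) (ds t : ℤ) : Prop :=
  (cs = true ∧ ds = 1 ∧ t = 1) ∨ (cs = false ∧ ds = -1 ∧ t = -1)

/-- `T`-element `q - p` without tree -/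
def Mis1 (cs : Bool) (ds t : ℤ) (reg : ℕ) : Prop :=
  (cs = true ∧ ds = 1 ∧ t = 1 ∧ reg = 0) ∨ (cs = false ∧ ds = -1 ∧ t = -1 ∧ reg = 1)

/-- `T`-element `2 p - q` without tree -/
def Mis2 (cs : Bool) (ds t : ℤ) (reg : ℕ) : Prop :=
  (cs = true ∧ ds = 1 ∧ t = 1 ∧ reg = 1) ∨ (cs = false ∧ ds = -1 ∧ t = -1 ∧ reg = 0)

/-- the classes of `S1` and `S2` -/
def BF (cs : Bool) (ds t : ℤ) (fb : ℕ) : Prop := ∀ reg : ℕ, 2 ≤ reg → reg ≤ 5 →
  Closed cs ds t reg fb 0 0 0 0 0 ∧ ClosedT cs ds t reg fb 1 0 (wsA t ds) 0 ∧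
    ∀ wx : ℤ, (wx = 0 ∨ wx = -ds) → ClosedT cs ds t reg fb 2 wx (wsB t ds) 0

/-- all classes -/
structure AllC : Prop where
  taG : ∀ (cs : Bool) (ds t : ℤ) (reg : ℕ), (ds = 1 ∨ ds = -1) → (t = 1 ∨ t = -1) → reg ≤ 1 →
    Closed cs ds t reg 1 0 0 0 0 0
  ta1 : ∀ (cs : Bool) (ds t : ℤ) (reg : ℕ), (ds = 1 ∨ ds = -1) → (t = 1 ∨ t = -1) → reg ≤ 1 →
    ¬ Mis1 cs ds t reg → Closed cs ds t reg 1 1 0 (wsA t ds) 0 0
  ta2 : ∀ (cs : Bool) (ds t : ℤ) (reg : ℕ) (wx : ℤ), (ds = 1 ∨ ds = -1) → (t = 1 ∨ t = -1) →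
    reg ≤ 1 → (wx = 0 ∨ wx = -ds) → ¬ (wx = 0 ∧ Mis2 cs ds t reg) →
    Closed cs ds t reg 1 2 wx (wsB t ds) 0 0
  ta3 : ∀ (cs : Bool) (ds t : ℤ) (reg : ℕ) (ws : ℤ), (ds = 1 ∨ ds = -1) → (t = 1 ∨ t = -1) →
    reg ≤ 1 → (ws = -1 ∨ ws = 0 ∨ ws = 1) → Closed cs ds t reg 1 3 (wxC ds) ws 0 0
  b : ∀ (cs : Bool) (ds t : ℤ), (ds = 1 ∨ ds = -1) → (t = 1 ∨ t = -1) → BF cs ds t 0
  f : ∀ (cs : Bool) (ds t : ℤ), Spc cs ds t → BF cs ds t 2
  p1 : ∀ (cs : Bool) (ds t : ℤ) (ws : ℤ), (ds = 1 ∨ ds = -1) → (t = 1 ∨ t = -1) →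
    (ws = -1 ∨ ws = 0 ∨ ws = 1) → ClosedT cs ds t 6 0 4 (wxD ds) ws 0
  p2 : ∀ (cs : Bool) (ds t : ℤ) (ws : ℤ), (ds = 1 ∨ ds = -1) → (t = 1 ∨ t = -1) →
    (ws = -1 ∨ ws = 0 ∨ ws = 1) →
    ClosedT cs ds t 6 0 3 (wxC ds) ws 0 ∨ ClosedE cs ds t 6 0 3 (wxC ds) ws

theorem hcs_of {c : ℤ} (hc : c ≠ 0) : ∃ cs, Hcs cs c := by
  rcases lt_or_gt_of_ne hc with h | h
  · exact ⟨false, Or.inr ⟨rfl, h⟩⟩
  · exact ⟨true, Or.inl ⟨rfl, h⟩⟩

section

variable {p a b c J ds l q E t : ℤ} {D dl : ℝ} {Cl : ℤ → ℤ → ℤ → ℤ → ℝ → Prop}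

/-- `S1` -/
theorem main1 (W : World2 p a b c J ds l q E t D dl Cl) (hc : -a < c) (hq : NQ p q)
    (hA : Aux p a b ds D Cl) {cs : Bool} (hcs : Hcs cs c) {fb : ℕ} (hB : BF cs ds t fb)
    (hfb : (fb = 0 ∧ b < 2 * a) ∨ (fb = 2 ∧ 2 * a ≤ b ∧ D < a - |(c : ℝ)|))
    {N X R : ℤ} {I m : ℝ} (hk : KGF p a b ds D (P2 l p q) Cl N X R I)
    (hM : KMin p a b ds (P2 l p q) Cl N m) (hm : m < D) (hC : Cas a b ds R (X + ds * I) m) :
    False := by
  obtain ⟨b1, b2, b3, b4⟩ := hk.bx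
  have key : ∀ reg : ℕ, 2 ≤ reg → reg ≤ 5 →
      Sid cs reg fb 0 a b c ds J E D (X + ds * I) (X + ds * I + R) I R →
      KFact reg fb p a b l q ds D (X + ds * I) (X + ds * I + R) N Cl → False := by
    intro reg h1 h2 hs hK
    obtain ⟨c0, c1, c2⟩ := hB reg h1 h2
    exact kill_elt W hc hq hA hk.cl hk.N0 hk.Np hk.NP hk.bx c0 (fun _ => c1)
      (fun _ wx h _ => c2 wx h) hs hK
  have hfb' : Hfb fb a b c D := by
    rcases hfb with ⟨rfl, h⟩ | ⟨rfl, h⟩ <;> exact h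
  have hcs' : Hcs cs c := hcs
  rcases hC with ⟨h1, h2⟩ | ⟨h1, h2⟩ | ⟨h1, h2⟩
  · have h1r : (b : ℝ) - a + 1 ≤ ds * R := by exact_mod_cast h1
    refine key 2 (by norm_num) (by norm_num) ⟨hcs', hfb', hk.I0, hk.ID, b1, b2, b3, b4, ?_,
      trivial⟩ ?_
    · exact ⟨by rw [← h2]; exact hm, by linarith⟩
    · show KMin p a b ds (P2 l p q) Cl N _
      rw [← h2]
      exact hM
  · have h1r : (ds : ℝ) * R + 1 ≤ b - a := by exact_mod_cast h1
    refine key 3 (by norm_num) (by norm_num) ⟨hcs', hfb', hk.I0, hk.ID, b1, b2, b3, b4, ?_,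
      trivial⟩ ?_
    · exact ⟨by rw [← h2]; exact hm, by linarith⟩
    · show KMin p a b ds (P2 l p q) Cl N _
      rw [← h2]
      exact hM
  · have h1r : (ds : ℝ) * R = b - a := by exact_mod_cast h1
    refine key 4 (by norm_num) (by norm_num) ⟨hcs', hfb', hk.I0, hk.ID, b1, b2, b3, b4, ?_,
      trivial⟩ ?_
    · exact ⟨by rw [← h2]; exact hm, h1r⟩
    · show KMin p a b ds (P2 l p q) Cl N _
      rw [← h2]
      exact hM

theorem lt2 (hds : ds = 1 ∨ ds = -1) {A : ℤ} {x : ℝ} (h1 : -(A : ℝ) < x) (h2 : x < A)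
    (h3 : D < A + ds * x) : D < 2 * A := by
  rcases hds with rfl | rfl <;> push_cast at h3 <;> linarith

/-- `S2` -/
theorem main2 (W : World2 p a b c J ds l q E t D dl Cl) (hc : -a < c) (hq : NQ p q)
    (hA : Aux p a b ds D Cl) {cs : Bool} (hcs : Hcs cs c) {fb : ℕ} (hB : BF cs ds t fb)
    (hfb : (fb = 0 ∧ b < 2 * a) ∨ (fb = 2 ∧ 2 * a ≤ b ∧ D < a - |(c : ℝ)|))
    (hS : KS2G p a b ds D (P2 l p q) Cl)
    (hX : ∀ σ w : ℤ, (σ = 1 ∨ σ = -1) → ∃ (N X R : ℤ) (I : ℝ),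
      KGF p a b ds D (P2 l p q) Cl N X R I ∧
      D < b + ds * (X + ds * I) ∧ D < a + ds * (X + ds * I + R) ∧
      σ * (ds * D) < 2 * (σ * (X + ds * I + w * R)) ∧
      KExW p a b ds (P2 l p q) Cl N σ w (σ * (X + ds * I + w * R)))
    (hX10 : ∃ (N X R : ℤ) (I : ℝ), KGF p a b ds D (P2 l p q) Cl N X R I ∧
      D < b + ds * (X + ds * I) ∧ D < a + ds * (X + ds * I + R) ∧
      ds * D < 2 * (X + ds * I) ∧
      KExtG10 p a b ds D (P2 l p q) Cl N (X + ds * I)) : False := by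
  have hcs' : Hcs cs c := hcs
  obtain ⟨c0, c1, c2⟩ := hB 5 (by norm_num) (by norm_num)
  rcases hfb with ⟨rfl, h⟩ | ⟨rfl, h⟩
  · obtain ⟨N, X, R, I, hk, g1, g2, g3, g4⟩ := hX 1 1 (Or.inl rfl)
    obtain ⟨b1, b2, b3, b4⟩ := hk.bx
    have e1 : ((1 : ℤ) : ℝ) * ((X : ℝ) + ds * I + ((1 : ℤ) : ℝ) * R) = X + ds * I + R := by
      push_cast
      ring
    rw [e1] at g3 g4
    refine kill_elt W hc hq hA hk.cl hk.N0 hk.Np hk.NP hk.bx c0 (fun _ => c1)
      (fun _ wx h _ => c2 wx h) ⟨hcs', h, hk.I0, hk.ID, b1, b2, b3, b4, ⟨g1, g2, ?_⟩, trivial⟩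
      ⟨hS, lt2 (dsc W) b1 b2 g1, lt2 (dsc W) b3 b4 g2, g4⟩
    show (ds : ℝ) * D < 2 * _
    push_cast at g3
    linarith
  · obtain ⟨N, X, R, I, hk, g1, g2, g3, g4⟩ := hX10
    obtain ⟨b1, b2, b3, b4⟩ := hk.bx
    exact kill_elt W hc hq hA hk.cl hk.N0 hk.Np hk.NP hk.bx c0 (fun _ => c1)
      (fun _ wx h _ => c2 wx h) ⟨hcs', h, hk.I0, hk.ID, b1, b2, b3, b4, ⟨g1, g2, g3⟩, trivial⟩
      ⟨hS, lt2 (dsc W) b1 b2 g1, lt2 (dsc W) b3 b4 g2, g4⟩

/-- the `T`-element with admissible index -/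
theorem tP2 (W : World2 p a b c J ds l q E t D dl Cl) (hc : -a < c) (hq : NQ p q)
    (hA : Aux p a b ds D Cl) (H : AllC) {cs : Bool} (hcs : Hcs cs c) (hab : 2 * a ≤ b)
    {N X R : ℤ} {I : ℝ} (hcl : Cl N 0 X R I) (N0 : 0 < N) (Np : N < p) (hP : P2 l p q N)
    (I0 : 0 < I) (ID : I < D) (hx : |(X : ℝ) + ds * I| < a - |(c : ℝ)|)
    (hs1 : |(c : ℝ)| < |(X : ℝ) + ds * I + R|) (hs2 : |(X : ℝ) + ds * I + R| < a) :
    Spc cs ds t ∧ D < a - |(c : ℝ)| := by
  have hcs' : Hcs cs c := hcs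
  have hab' : 2 * (a : ℝ) ≤ b := by exact_mod_cast hab
  have hk0 : (0 : ℝ) ≤ |(c : ℝ)| := abs_nonneg _
  have hx' := hx
  have hs2' := hs2
  rw [abs_lt] at hx' hs2'
  have bx : Bx a b ds X R I :=
    ⟨by linarith [hx'.1], by linarith [hx'.2], hs2'.1, hs2'.2⟩
  obtain ⟨b1, b2, b3, b4⟩ := bx
  obtain ⟨reg, hr1, hr2⟩ : ∃ reg : ℕ, reg ≤ 1 ∧ (match reg with
    | 0 => |(X : ℝ) + ds * I| < a - |(c : ℝ)| ∧ |(c : ℝ)| < (X : ℝ) + ds * I + R
    | 1 => |(X : ℝ) + ds * I| < a - |(c : ℝ)| ∧ |(c : ℝ)| < -((X : ℝ) + ds * I + R)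
    | _ => False) := by
    rw [lt_abs] at hs1
    rcases hs1 with h | h
    · exact ⟨0, by norm_num, hx, h⟩
    · exact ⟨1, by norm_num, hx, h⟩
  have hs : Sid cs reg 1 0 a b c ds J E D (X + ds * I) (X + ds * I + R) I R := by
    refine ⟨hcs', hab, I0, ID, b1, b2, b3, b4, ?_, trivial⟩
    rcases reg with _ | _ | reg
    · exact hr2
    · exact hr2
    · omega
  have hK : KFact reg 1 p a b l q ds D (X + ds * I) (X + ds * I + R) N Cl := by
    rcases reg with _ | _ | reg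
    · trivial
    · trivial
    · omega
  by_contra hcon
  refine kill_elt W hc hq hA hcl N0 Np hP ⟨b1, b2, b3, b4⟩
    (H.taG cs ds t reg (dsc W) W.ht hr1) (fun h1 => Or.inl (H.ta1 cs ds t reg (dsc W) W.ht hr1 ?_))
    (fun h1 wx h2 h3 => Or.inl (H.ta2 cs ds t reg wx (dsc W) W.ht hr1 h2 ?_)) hs hK
  · intro hm
    apply hcon
    obtain ⟨e1, e2, e3, e4⟩ := elt1 W hcl h1 ⟨b1, b2, b3, b4⟩
    rw [e2] at hx'
    simp only [kZ] at hx'
    rcases hm with ⟨rfl, rfl, rfl, -⟩ | ⟨rfl, rfl, rfl, -⟩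
    · refine ⟨Or.inl ⟨rfl, rfl, rfl⟩, ?_⟩
      push_cast at hx'
      linarith [hx'.1, hx'.2]
    · refine ⟨Or.inr ⟨rfl, rfl, rfl⟩, ?_⟩
      push_cast at hx'
      linarith [hx'.1, hx'.2]
  · rintro ⟨rfl, hm⟩
    apply hcon
    rw [h3] at hx'
    simp only [kZ] at hx'
    have hD0 : 0 < D := by
      have h1 := W.hJD
      have h2 : (1 : ℝ) ≤ J := by exact_mod_cast W.hJ
      linarith
    rcases hm with ⟨rfl, rfl, rfl, -⟩ | ⟨rfl, rfl, rfl, -⟩
    · refine ⟨Or.inl ⟨rfl, rfl, rfl⟩, ?_⟩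
      push_cast at hx'
      linarith [hx'.1, hx'.2]
    · refine ⟨Or.inr ⟨rfl, rfl, rfl⟩, ?_⟩
      push_cast at hx'
      linarith [hx'.1, hx'.2]

/-- the `T`-element `p + l - q` -/
theorem tP3 (W : World2 p a b c J ds l q E t D dl Cl) (hc : -a < c) (hq : NQ p q)
    (hA : Aux p a b ds D Cl) (H : AllC) {cs : Bool} (hcs : Hcs cs c) (hab : 2 * a ≤ b)
    {WX WS : ℤ} (hx : |ds * D - b + WX * p| < a - |(c : ℝ)|)
    (hs1 : |(c : ℝ)| < |ds * D + c - t * a + WS * p|)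
    (hs2 : |ds * D + c - t * a + WS * p| < a) : False := by
  have hcs' : Hcs cs c := hcs
  have hab' : 2 * (a : ℝ) ≤ b := by exact_mod_cast hab
  have hk0 : (0 : ℝ) ≤ |(c : ℝ)| := abs_nonneg _
  have hds := dsc W
  have w3 : 2 * (a : ℝ) < p := by exact_mod_cast W.h2a
  have w4 : 2 * (b : ℝ) < p := by exact_mod_cast W.h2b
  have w2 : (2 : ℝ) ≤ b := by exact_mod_cast W.hb
  have w1 : (2 : ℝ) ≤ a := by exact_mod_cast W.ha
  have w5 : (1 : ℝ) ≤ J := by exact_mod_cast W.hJ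
  have w6 := W.hJD
  have w7 := W.hD
  have w8 := W.hE
  have w9 := W.hE'
  have s1 : -(a : ℝ) < c := by exact_mod_cast hc
  have s2 : (c : ℝ) < a := by exact_mod_cast W.hca'
  have hx' := hx
  have hs2' := hs2
  rw [abs_lt] at hx' hs2'
  obtain ⟨x1, x2⟩ := hx'
  obtain ⟨y1, y2⟩ := hs2'
  have k1 : WX = wxC ds := by
    unfold wxC
    rcases hds with rfl | rfl
    · rw [if_pos rfl]
      push_cast at x1 x2
      have k1 : -1 < WX := ltof W (by push_cast; linarith)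
      have k2 : WX < 1 := ltof W (by push_cast; linarith)
      omega
    · rw [if_neg (by norm_num)]
      push_cast at x1 x2
      have k1 : 0 < WX := ltof W (by push_cast; linarith)
      have k2 : WX < 2 := ltof W (by push_cast; linarith)
      omega
  have k2 : WS = -1 ∨ WS = 0 ∨ WS = 1 := by
    have k3 : -2 < WS := ltof W (by
      rcases hds with rfl | rfl <;> rcases W.ht with h | h <;> rw [h] at y1 y2 <;>
        push_cast at y1 y2 ⊢ <;> linarith)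
    have k4 : WS < 2 := ltof W (by
      rcases hds with rfl | rfl <;> rcases W.ht with h | h <;> rw [h] at y1 y2 <;>
        push_cast at y1 y2 ⊢ <;> linarith)
    omega
  subst k1
  have e1 : ds * D - b + (wxC ds : ℝ) * p = kZ 3 b ds D + (wxC ds : ℝ) * p := rfl
  have e2 : ds * D + c - t * a + (WS : ℝ) * p = kZ 3 b ds D + kR 3 a b c t + (WS : ℝ) * p := by
    simp only [kZ, kR]
    push_cast
    ring
  rw [e1] at hx x1 x2
  rw [e2] at hs1 hs2 y1 y2
  have key : ∀ reg : ℕ, reg ≤ 1 → (match reg with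
    | 0 => |kZ 3 b ds D + (wxC ds : ℝ) * p| < a - |(c : ℝ)| ∧
      |(c : ℝ)| < kZ 3 b ds D + kR 3 a b c t + (WS : ℝ) * p
    | 1 => |kZ 3 b ds D + (wxC ds : ℝ) * p| < a - |(c : ℝ)| ∧
      |(c : ℝ)| < -(kZ 3 b ds D + kR 3 a b c t + (WS : ℝ) * p)
    | _ => False) → False := by
    intro reg hr1 hr2
    refine killN W hc hq (kq := 3) (by norm_num) (fun h => absurd h (by simp [knq])) (Nk := 0)
      (fun Nr => ⟨0, by simp [NN, kdm]⟩) (H.ta3 cs ds t reg WS hds W.ht hr1 k2) ?_ ?_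
    · refine ⟨hcs', hab, ?_, ?_, ?_, ?_, y1, y2, ?_, trivial⟩
      · simp only [kI]
        linarith
      · simp only [kI]
        linarith
      · linarith
      · linarith
      · rcases reg with _ | _ | reg
        · exact hr2
        · exact hr2
        · omega
    · rcases reg with _ | _ | reg
      · trivial
      · trivial
      · omega
  rw [lt_abs] at hs1
  rcases hs1 with h | h
  · exact key 0 (by norm_num) ⟨hx, h⟩
  · exact key 1 (by norm_num) ⟨hx, h⟩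

end

theorem tq1_of (H : AllC) : TQ1 := by
  intro p a b c J ds l q E t D dl Cl W hc N X R I m hk hM hm hC hA hq hT
  obtain ⟨cs, hcs⟩ := hcs_of W.hc0
  rcases lt_or_ge b (2 * a) with hab | hab
  · exact main1 W hc hq hA hcs (H.b cs ds t (dsc W) W.ht) (Or.inl ⟨rfl, hab⟩) hk hM hm hC
  · rcases hT hab with ⟨N', X', R', I', h1, h2, h3, h4, h5, h6, h7, h8, h9⟩ | ⟨WX, WS, h1, h2, h3⟩
    · obtain ⟨g1, g2⟩ := tP2 W hc hq hA H hcs hab h1 h2 h3 h4 h5 h6 h7 h8 h9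
      exact main1 W hc hq hA hcs (H.f cs ds t g1) (Or.inr ⟨rfl, hab, g2⟩) hk hM hm hC
    · exact tP3 W hc hq hA H hcs hab h1 h2 h3

theorem tq2_of (H : AllC) : TQ2 := by
  intro p a b c J ds l q E t D dl Cl W hc hS hX hX10 hA hq hT
  obtain ⟨cs, hcs⟩ := hcs_of W.hc0
  rcases lt_or_ge b (2 * a) with hab | hab
  · exact main2 W hc hq hA hcs (H.b cs ds t (dsc W) W.ht) (Or.inl ⟨rfl, hab⟩) hS hX hX10
  · rcases hT hab with ⟨N', X', R', I', h1, h2, h3, h4, h5, h6, h7, h8, h9⟩ | ⟨WX, WS, h1, h2, h3⟩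
    · obtain ⟨g1, g2⟩ := tP2 W hc hq hA H hcs hab h1 h2 h3 h4 h5 h6 h7 h8 h9
      exact main2 W hc hq hA hcs (H.f cs ds t g1) (Or.inr ⟨rfl, hab, g2⟩) hS hX hX10
    · exact tP3 W hc hq hA H hcs hab h1 h2 h3

theorem tqp_of (H : AllC) : TQP := by
  intro p a b c J ds l q E t D dl Cl W hc hE hPL hA hq hT hEJ
  obtain ⟨cs, hcs⟩ := hcs_of W.hc0
  have hds := dsc W
  have w3 : 2 * (a : ℝ) < p := by exact_mod_cast W.h2a
  have w4 : 2 * (b : ℝ) < p := by exact_mod_cast W.h2b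
  have w2 : (2 : ℝ) ≤ b := by exact_mod_cast W.hb
  have w1 : (2 : ℝ) ≤ a := by exact_mod_cast W.ha
  have w5 : (1 : ℝ) ≤ J := by exact_mod_cast W.hJ
  have w6 := W.hJD
  have w7 := W.hD
  have w8 := W.hE
  have w9 := W.hE'
  have s1 : -(a : ℝ) < c := by exact_mod_cast hc
  have s2 : (c : ℝ) < a := by exact_mod_cast W.hca'
  rcases lt_or_ge b (2 * a) with hab | hab
  · have hcs' : Hcs cs c := hcs
    rcases hPL with hPL | ⟨h1, WS, h2, h3, h4⟩
    · -- `p - l`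
      have key : ∀ ws : ℤ, (ws = -1 ∨ ws = 0 ∨ ws = 1) →
          -(b : ℝ) < ds * D + b + (wxD ds : ℝ) * p → ds * D + b + (wxD ds : ℝ) * p < b →
          -(a : ℝ) < ds * D - c + ws * p → ds * D - c + ws * p < a → False := by
        intro ws h0 h1 h2 h3 h4
        refine killT W hc hq (kq := 4) (by norm_num) (fun h => absurd h (by simp [knq]))
          (Nk := 0) (fun Nr => ⟨0, by simp [NN, kdm]⟩) (H.p1 cs ds t ws hds W.ht h0)
          ⟨hcs', hab, ?_, ?_, h1, h2, ?_, ?_, trivial, trivial⟩ hE hA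
        · simp only [kI]
          linarith
        · simp only [kI]
          linarith
        · simp only [kZ, kR]
          push_cast
          linarith
        · simp only [kZ, kR]
          push_cast
          linarith
      rcases hPL with ⟨rfl, h1, h2⟩ | ⟨rfl, h1, h2⟩
      · have e : wxD (-1) = 0 := rfl
        rw [e] at key
        rcases h2 with ⟨h2, h3⟩ | h2
        · exact key 0 (by norm_num) (by push_cast; linarith) (by push_cast; linarith)
            (by push_cast; linarith) (by push_cast; linarith)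
        · exact key 1 (by norm_num) (by push_cast; linarith) (by push_cast; linarith)
            (by push_cast; linarith) (by push_cast; linarith)
      · have e : wxD 1 = -1 := rfl
        rw [e] at key
        rcases h2 with ⟨h2, h3⟩ | h2
        · exact key 0 (by norm_num) (by push_cast; linarith) (by push_cast; linarith)
            (by push_cast; linarith) (by push_cast; linarith)
        · exact key (-1) (by norm_num) (by push_cast; linarith) (by push_cast; linarith)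
            (by push_cast; linarith) (by push_cast; linarith)
    · -- `p + l - q`
      have hS : Sid cs 6 0 0 a b c ds J E D (kZ 3 b ds D + (wxC ds : ℝ) * p)
          (kZ 3 b ds D + kR 3 a b c t + (WS : ℝ) * p) (kI 3 D J E)
          (kR 3 a b c t + ((WS : ℝ) - (wxC ds : ℝ)) * p) := by
        refine ⟨hcs', hab, ?_, ?_, ?_, ?_, ?_, ?_, trivial, trivial⟩
        · simp only [kI]
          linarith
        · simp only [kI]
          linarith
        · rcases h1 with ⟨rfl, h1⟩ | ⟨rfl, h1⟩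
          · have e : wxC 1 = 0 := rfl
            simp only [kZ, e]
            push_cast
            linarith
          · have e : wxC (-1) = 1 := rfl
            simp only [kZ, e]
            push_cast
            linarith
        · rcases h1 with ⟨rfl, h1⟩ | ⟨rfl, h1⟩
          · have e : wxC 1 = 0 := rfl
            simp only [kZ, e]
            push_cast
            linarith
          · have e : wxC (-1) = 1 := rfl
            simp only [kZ, e]
            push_cast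
            linarith
        · simp only [kZ, kR]
          push_cast
          linarith
        · simp only [kZ, kR]
          push_cast
          linarith
      rcases H.p2 cs ds t WS hds W.ht h2 with hT | hT
      · exact killT W hc hq (kq := 3) (by norm_num) (fun h => absurd h (by simp [knq]))
          (Nk := 0) (fun Nr => ⟨0, by simp [NN, kdm]⟩) hT hS hE hA
      · exact killE W hc hq hEJ (kq := 3) (by norm_num) (fun h => absurd h (by simp [knq]))
          (Nk := 0) (fun Nr => ⟨0, by simp [NN, kdm]⟩) hT hS hE hA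
  · rcases hT hab with ⟨N', X', R', I', h1, h2, h3, h4, h5, h6, h7, h8, h9⟩ | ⟨WX, WS, h1, h2, h3⟩
    · have hab' : 2 * (a : ℝ) ≤ b := by exact_mod_cast hab
      have hk0 : (0 : ℝ) ≤ |(c : ℝ)| := abs_nonneg _
      rw [abs_lt] at h7 h9
      exact hE h1 (by norm_num) h2 h3 h4 ⟨by linarith [h7.1], by linarith [h7.2], h9.1, h9.2⟩
    · exact tP3 W hc hq hA H hcs hab h1 h2 h3

end Helper12.TQ
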