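import Pool.Agent.Helper12.TQ.Kill

set_option autoImplicit false
set_option linter.unusedSectionVars false
set_option linter.unusedVariables false
set_option linter.unusedSimpArgs false

/-!
# The classes with `q < p + l`: elements with special indices
-/

noncomputable section

namespace Helper12.TQ

open Helper25.KW Helper55.KE Helper11.CT Helper55.Q2

/-- shift of the ordinate for `k = q - p` -/
def wsA (t ds : ℤ) : ℤ := if t = ds then 0 else ds

/-- shift of the ordinate for `k = 2 p - q` -/
def wsB (t ds : ℤ) : ℤ := if t = ds then 0 else -ds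

/-- shift of the abscissa for `p + l - q` -/
def wxC (ds : ℤ) : ℤ := if ds = 1 then 0 else 1

/-- shift of the abscissa for `p - l` -/
def wxD (ds : ℤ) : ℤ := if ds = 1 then -1 else 0

section

variable {p a b c J ds l q E t : ℤ} {D dl : ℝ} {Cl : ℤ → ℤ → ℤ → ℤ → ℝ → Prop}

/-- two clusters with the same index and the same `τ` -/
theorem same (h : Base p a b c J ds l q D dl Cl) {N τ X R X' R' : ℤ} {I I' : ℝ}
    (h1 : Cl N τ X R I) (h2 : Cl N τ X' R' I') :
    I = I' ∧ (∃ m : ℤ, X = X' + m * p) ∧ (∃ m : ℤ, R = R' + m * p) := by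
  have h3 := h.add h1 (h.neg h2)
  have e1 : N + -N = 0 := by ring
  have e2 : τ + -τ = 0 := by ring
  rw [e1, e2] at h3
  have h4 := h.pos0 h3
  have h5 := h.pos0 (h.neg h3)
  refine ⟨?_, ?_, ?_⟩
  · by_contra hcon
    rcases lt_or_gt_of_ne hcon with h6 | h6
    · exact absurd (h5.1 (by linarith)) (by simp)
    · exact absurd (h4.1 (by linarith)) (by simp)
  · obtain ⟨m, hm⟩ := h.dvX h3 (dvd_zero p)
    exact ⟨m, by linarith⟩
  · obtain ⟨m, hm⟩ := (h.dvd h3).1 (dvd_zero p)
    exact ⟨m, by linarith⟩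

theorem ltof (W : World2 p a b c J ds l q E t D dl Cl) {m n : ℤ} (h : (m : ℝ) * p < n * p) :
    m < n := by
  have hp : (0 : ℝ) < p := by
    have := W.ha
    have := W.h2a
    exact_mod_cast (by omega : 0 < p)
  exact_mod_cast lt_of_mul_lt_mul_right h hp.le

/-- the cluster `q - p` -/
theorem elt1 (W : World2 p a b c J ds l q E t D dl Cl) {N X R : ℤ} {I : ℝ}
    (hcl : Cl N 0 X R I) (hN : N + p = q) (bx : Bx a b ds X R I) :
    I = kI 1 D J E ∧ (X : ℝ) + ds * I = kZ 1 b ds D + ((0 : ℤ) : ℝ) * p ∧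
      (X : ℝ) + ds * I + R = kZ 1 b ds D + kR 1 a b c t + (wsA t ds : ℝ) * p ∧
      (R : ℝ) = kR 1 a b c t + ((wsA t ds : ℝ) - ((0 : ℤ) : ℝ)) * p := by
  have h1 := W.add W.cq (W.neg W.cp)
  have e0 : q + -p = N := by omega
  rw [e0] at h1
  simp only [neg_zero, add_zero] at h1
  obtain ⟨h2, ⟨wx, h3⟩, wr, h4⟩ := same W.toBase hcl h1
  obtain ⟨b1, b2, b3, b4⟩ := bx
  have hds := dsc W
  have ht := W.ht
  have w3 : 2 * (a : ℝ) < p := by exact_mod_cast W.h2a
  have w4 : 2 * (b : ℝ) < p := by exact_mod_cast W.h2b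
  have w2 : (2 : ℝ) ≤ b := by exact_mod_cast W.hb
  have w1 : (2 : ℝ) ≤ a := by exact_mod_cast W.ha
  have w5 : (1 : ℝ) ≤ J := by exact_mod_cast W.hJ
  have w6 := W.hJD
  have w7 := W.hD
  have h3r : (X : ℝ) = -(ds * E) + wx * p := by
    rw [h3]
    push_cast
    ring
  have h4r : (R : ℝ) = t * a + wr * p := by
    rw [h4]
    push_cast
    ring
  have hd2 : (ds : ℝ) * ds = 1 := by rcases hds with rfl | rfl <;> norm_num
  have hx : (X : ℝ) + ds * I = -(ds * D) + wx * p := by
    rw [h3r, h2]
    ring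
  rw [hx] at b1 b2 b3 b4
  rw [h4r] at b3 b4
  have k1 : wx = 0 := by
    rcases hds with rfl | rfl <;> push_cast at * <;>
    · have k1 : -1 < wx := ltof W (by push_cast; linarith)
      have k2 : wx < 1 := ltof W (by push_cast; linarith)
      omega
  subst k1
  have k2 : wr = wsA t ds := by
    unfold wsA
    rcases hds with rfl | rfl <;> rcases ht with rfl | rfl
    · rw [if_pos rfl]
      push_cast at *
      have k1 : -1 < wr := ltof W (by push_cast; linarith)
      have k2 : wr < 1 := ltof W (by push_cast; linarith)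
      omega
    · rw [if_neg (by norm_num)]
      push_cast at *
      have k1 : 0 < wr := ltof W (by push_cast; linarith)
      have k2 : wr < 2 := ltof W (by push_cast; linarith)
      omega
    · rw [if_neg (by norm_num)]
      push_cast at *
      have k1 : -2 < wr := ltof W (by push_cast; linarith)
      have k2 : wr < 0 := ltof W (by push_cast; linarith)
      omega
    · rw [if_pos rfl]
      push_cast at *
      have k1 : -1 < wr := ltof W (by push_cast; linarith)
      have k2 : wr < 1 := ltof W (by push_cast; linarith)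
      omega
  subst k2
  refine ⟨?_, ?_, ?_, ?_⟩
  · rw [h2]
    rfl
  · rw [hx]
    rfl
  · rw [hx, h4r]
    simp only [kZ, kR]
    push_cast
    ring
  · rw [h4r]
    simp only [kR]
    push_cast
    ring

/-- the cluster `2 p - q` -/
theorem elt2 (W : World2 p a b c J ds l q E t D dl Cl) {N X R : ℤ} {I : ℝ}
    (hcl : Cl N 0 X R I) (hN : N + q = 2 * p) (bx : Bx a b ds X R I) :
    ∃ wx : ℤ, (wx = 0 ∨ wx = -ds) ∧
    I = kI 2 D J E ∧ (X : ℝ) + ds * I = kZ 2 b ds D + (wx : ℝ) * p ∧
      (X : ℝ) + ds * I + R = kZ 2 b ds D + kR 2 a b c t + (wsB t ds : ℝ) * p ∧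
      (R : ℝ) = kR 2 a b c t + ((wsB t ds : ℝ) - (wx : ℝ)) * p := by
  have h1 := W.add (W.add W.cp W.cp) (W.neg W.cq)
  have e0 : p + p + -q = N := by omega
  rw [e0] at h1
  simp only [neg_zero, add_zero] at h1
  obtain ⟨h2, ⟨wx, h3⟩, wr, h4⟩ := same W.toBase hcl h1
  obtain ⟨b1, b2, b3, b4⟩ := bx
  have hds := dsc W
  have ht := W.ht
  have w3 : 2 * (a : ℝ) < p := by exact_mod_cast W.h2a
  have w4 : 2 * (b : ℝ) < p := by exact_mod_cast W.h2b
  have w2 : (2 : ℝ) ≤ b := by exact_mod_cast W.hb
  have w1 : (2 : ℝ) ≤ a := by exact_mod_cast W.ha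
  have w5 : (1 : ℝ) ≤ J := by exact_mod_cast W.hJ
  have w6 := W.hJD
  have w7 := W.hD
  have h3r : (X : ℝ) = ds * E + wx * p := by
    rw [h3]
    push_cast
    ring
  have h4r : (R : ℝ) = -(t * a) + wr * p := by
    rw [h4]
    push_cast
    ring
  have hd2 : (ds : ℝ) * ds = 1 := by rcases hds with rfl | rfl <;> norm_num
  have hx : (X : ℝ) + ds * I = 2 * (ds * D) + wx * p := by
    rw [h3r, h2]
    ring
  rw [hx] at b1 b2 b3 b4
  rw [h4r] at b3 b4
  have k1 : wx = 0 ∨ wx = -ds := by
    rcases hds with rfl | rfl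
    · push_cast at *
      have k1 : -2 < wx := ltof W (by push_cast; linarith)
      have k2 : wx < 1 := ltof W (by push_cast; linarith)
      omega
    · push_cast at *
      have k1 : -1 < wx := ltof W (by push_cast; linarith)
      have k2 : wx < 2 := ltof W (by push_cast; linarith)
      omega
  have k2 : wx + wr = wsB t ds := by
    unfold wsB
    rcases hds with rfl | rfl <;> rcases ht with rfl | rfl
    · rw [if_pos rfl]
      push_cast at *
      have k1 : -1 < wx + wr := ltof W (by push_cast; linarith)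
      have k2 : wx + wr < 1 := ltof W (by push_cast; linarith)
      omega
    · rw [if_neg (by norm_num)]
      push_cast at *
      have k1 : -2 < wx + wr := ltof W (by push_cast; linarith)
      have k2 : wx + wr < 0 := ltof W (by push_cast; linarith)
      omega
    · rw [if_neg (by norm_num)]
      push_cast at *
      have k1 : 0 < wx + wr := ltof W (by push_cast; linarith)
      have k2 : wx + wr < 2 := ltof W (by push_cast; linarith)
      omega
    · rw [if_pos rfl]
      push_cast at *
      have k1 : -1 < wx + wr := ltof W (by push_cast; linarith)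
      have k2 : wx + wr < 1 := ltof W (by push_cast; linarith)
      omega
  rw [← k2]
  refine ⟨wx, k1, ?_, ?_, ?_, ?_⟩
  · rw [h2]
    simp only [kI]
    ring
  · rw [hx]
    rfl
  · rw [hx, h4r]
    simp only [kZ, kR]
    push_cast
    ring
  · rw [h4r]
    simp only [kR]
    push_cast
    ring

/-- an element is excluded by the closed classes -/
theorem kill_elt (W : World2 p a b c J ds l q E t D dl Cl) (hc : -a < c) (hq : NQ p q)
    (hA : Aux p a b ds D Cl) {N X R : ℤ} {I : ℝ} (hcl : Cl N 0 X R I) (N0 : 0 < N) (Np : N < p)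
    (hP : P2 l p q N) (bx : Bx a b ds X R I) {cs : Bool} {reg fb : ℕ}
    (cG : Closed cs ds t reg fb 0 0 0 0 0)
    (c1 : N + p = q → ClosedT cs ds t reg fb 1 0 (wsA t ds) 0)
    (c2 : N + q = 2 * p → ∀ wx : ℤ, (wx = 0 ∨ wx = -ds) →
      (X : ℝ) + ds * I = kZ 2 b ds D + (wx : ℝ) * p → ClosedT cs ds t reg fb 2 wx (wsB t ds) 0)
    (hs : Sid cs reg fb 0 a b c ds J E D (X + ds * I) (X + ds * I + R) I R)
    (hK : KFact reg fb p a b l q ds D (X + ds * I) (X + ds * I + R) N Cl) : False := by
  have hP' := hP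
  obtain ⟨p1, p2, p3, p4⟩ := hP'
  by_cases h1 : N + p = q
  · obtain ⟨e1, e2, e3, e4⟩ := elt1 W hcl h1 bx
    rw [e3, e2, e1, e4] at hs
    rw [e3, e2] at hK
    refine killT W hc hq (kq := 1) (by norm_num) (fun _ => ?_) (Nk := N) (fun Nr => ⟨0, ?_⟩)
      (c1 h1) hs hK hA
    · have v1 := W.hl
      have v2 := W.hlp
      have v3 := W.hpq
      have v4 := W.hq
      exact ⟨nd_sh (-2) (by omega) (by omega) (by omega),
        nd_sh (-2) (by omega) (by omega) (by omega)⟩
    · simp [NN, kdm]
      omega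
  · by_cases h2 : N + q = 2 * p
    · obtain ⟨wx, e0, e1, e2, e3, e4⟩ := elt2 W hcl h2 bx
      have c2' := c2 h2 wx e0 e2
      rw [e3, e2, e1, e4] at hs
      rw [e3, e2] at hK
      refine killT W hc hq (kq := 2) (by norm_num) (fun _ => ?_) (Nk := N) (fun Nr => ⟨0, ?_⟩)
        c2' hs hK hA
      · have v1 := W.hl
        have v2 := W.hlp
        have v3 := W.hpq
        have v4 := W.hq
        exact ⟨nd_sh (-2) (by omega) (by omega) (by omega),
          nd_sh (-2) (by omega) (by omega) (by omega)⟩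
      · simp [NN, kdm]
        omega
    · exact killG W hc hq hcl N0 Np hP h1 h2 cG hs hK

end

end Helper12.TQ
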