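import Pool.Agent.Helper12.TQ.G

set_option autoImplicit false
set_option linter.unusedSectionVars false
set_option linter.unusedVariables false
set_option linter.unusedSimpArgs false

/-!
# The classes with `q < p + l`: values of the forms
-/

noncomputable section

namespace Helper12.TQ

open Helper25.KW Helper55.KE Helper11.CT Helper55.Q2

/-- index coordinate of `k` -/
def kI (kq : ℕ) (D : ℝ) (J E : ℤ) : ℝ := match kq with
  | 1 => E - D
  | 2 => 2 * D - E
  | 3 => D + J - E
  | _ => D - J

/-- abscissa of `k` (modulo `p`) -/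
def kZ (kq : ℕ) (b ds : ℤ) (D : ℝ) : ℝ := match kq with
  | 1 => -(ds * D)
  | 2 => 2 * (ds * D)
  | 3 => ds * D - b
  | _ => ds * D + b

/-- row of `k` (modulo `p`) -/
def kR (kq : ℕ) (a b c t : ℤ) : ℤ := match kq with
  | 1 => t * a
  | 2 => -(t * a)
  | 3 => c + b - t * a
  | _ => -(c + b)

@[simp] theorem ev_lin_nil {R : Type} [CommRing R] (x : List R) (G : List (List ℤ)) :
    evg x (lin G []) = 0 := by
  have e : lin G [] = [] := by cases G <;> rfl
  rw [e]
  simp

theorem xv_o (a b c : ℤ) (vi : List ℤ) (vr : List ℝ) :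
    ∃ y, xv (1 :: a :: b :: c :: vi) vr = 1 :: (a : ℝ) :: (b : ℝ) :: (c : ℝ) :: y :=
  ⟨xv vi vr, by simp [xv]⟩

section

variable {p a b c J ds l q E t : ℤ} {D dl : ℝ}

theorem fv_G {X R : ℤ} {I : ℝ} (tok : ℕ) :
    FV (fQ ds t 0 0 0 tok) (xv [1, a, b, c, p, J, E, X, R] [D, I]) a b c p J E D (X + ds * I)
      (X + ds * I + R) I R := by
  have h := hn ds
  have h2 : ((Int.sub 0 0 : ℤ) : ℝ) = 0 := by
    show ((0 - 0 : ℤ) : ℝ) = _
    push_cast
    ring
  refine ⟨xv_o _ _ _ _ _, ?_, ?_, ?_, ?_, ?_, ?_, ?_, ?_⟩ <;>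
    simp only [fQ, fkQ, m0, kdq, cG, fI, fX, fR, fx, evg_lin, evg_axpy, xv, List.map_cons,
      List.map_nil, List.cons_append, List.nil_append, evg_cons, evg_nil, ev_lin_nil, h, h2] <;>
    push_cast <;> ring

theorem fv_N {kq : ℕ} (hkq : kq ≠ 0) (wx ws : ℤ) :
    FV (fQ ds t kq wx ws 0) (xv [1, a, b, c, p, J, E] [D]) a b c p J E D
      (kZ kq b ds D + wx * p) (kZ kq b ds D + kR kq a b c t + ws * p) (kI kq D J E)
      (kR kq a b c t + (ws - wx) * p) := by
  have h := hn ds
  have h2 : ((Int.sub ws wx : ℤ) : ℝ) = ws - wx := by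
    show ((ws - wx : ℤ) : ℝ) = _
    push_cast
    ring
  rcases kq with _ | _ | _ | _ | kq
  · exact absurd rfl hkq
  all_goals
    refine ⟨xv_o _ _ _ _ _, ?_, ?_, ?_, ?_, ?_, ?_, ?_, ?_⟩ <;>
      simp only [fQ, fkQ, m0, kdq, cN, fI, fX, fR, fx, evg_lin, evg_axpy, xv, List.map_cons,
        List.map_nil, List.cons_append, List.nil_append, evg_cons, evg_nil, ev_lin_nil, h, h2,
        kI, kZ, kR] <;>
      push_cast <;> ring

theorem fv_U {kq : ℕ} (hkq : kq ≠ 0) (wx ws : ℤ) {R : ℤ} {I : ℝ} :
    FV (fQ ds t kq wx ws 1) (xv [1, a, b, c, p, J, E, R] [D, I]) a b c p J E D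
      (kZ kq b ds D + wx * p) (kZ kq b ds D + kR kq a b c t + ws * p) (kI kq D J E)
      (kR kq a b c t + (ws - wx) * p) := by
  have h := hn ds
  have h2 : ((Int.sub ws wx : ℤ) : ℝ) = ws - wx := by
    show ((ws - wx : ℤ) : ℝ) = _
    push_cast
    ring
  rcases kq with _ | _ | _ | _ | kq
  · exact absurd rfl hkq
  all_goals
    refine ⟨xv_o _ _ _ _ _, ?_, ?_, ?_, ?_, ?_, ?_, ?_, ?_⟩ <;>
      simp only [fQ, fkQ, m0, kdq, cU, fI, fX, fR, fx, evg_lin, evg_axpy, xv, List.map_cons,
        List.map_nil, List.cons_append, List.nil_append, evg_cons, evg_nil, ev_lin_nil, h, h2,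
        kI, kZ, kR] <;>
      push_cast <;> ring

theorem fv_V {kq : ℕ} (hkq : kq ≠ 0) (wx ws : ℤ) {R : ℤ} {I : ℝ} :
    FV (fQ ds t kq wx ws 2) (xv [1, a, b, c, p, J, E, R] [D, I]) a b c p J E D
      (kZ kq b ds D + wx * p) (kZ kq b ds D + kR kq a b c t + ws * p) (kI kq D J E)
      (kR kq a b c t + (ws - wx) * p) := by
  have h := hn ds
  have h2 : ((Int.sub ws wx : ℤ) : ℝ) = ws - wx := by
    show ((ws - wx : ℤ) : ℝ) = _
    push_cast
    ring
  rcases kq with _ | _ | _ | _ | kq
  · exact absurd rfl hkq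
  all_goals
    refine ⟨xv_o _ _ _ _ _, ?_, ?_, ?_, ?_, ?_, ?_, ?_, ?_⟩ <;>
      simp only [fQ, fkQ, m0, kdq, cV, fI, fX, fR, fx, evg_lin, evg_axpy, xv, List.map_cons,
        List.map_nil, List.cons_append, List.nil_append, evg_cons, evg_nil, ev_lin_nil, h, h2,
        kI, kZ, kR] <;>
      push_cast <;> ring

theorem fv_W {kq : ℕ} (hkq : kq ≠ 0) (wx ws : ℤ) {R : ℤ} {I : ℝ} (hR : 2 * R = p)
    (hI : 2 * I = D) :
    FV (fQ ds t kq wx ws 3) (xv [1, a, b, c, J, E, R] [I]) a b c p J E D
      (kZ kq b ds D + wx * p) (kZ kq b ds D + kR kq a b c t + ws * p) (kI kq D J E)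
      (kR kq a b c t + (ws - wx) * p) := by
  have h := hn ds
  have h2 : ((Int.sub ws wx : ℤ) : ℝ) = ws - wx := by
    show ((ws - wx : ℤ) : ℝ) = _
    push_cast
    ring
  subst hR hI
  rcases kq with _ | _ | _ | _ | kq
  · exact absurd rfl hkq
  all_goals
    refine ⟨xv_o _ _ _ _ _, ?_, ?_, ?_, ?_, ?_, ?_, ?_, ?_⟩ <;>
      simp only [fQ, fkQ, m0, kdq, cW, fI, fX, fR, fx, evg_lin, evg_axpy, xv, List.map_cons,
        List.map_nil, List.cons_append, List.nil_append, evg_cons, evg_nil, ev_lin_nil, h, h2,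
        kI, kZ, kR] <;>
      push_cast <;> ring

/-! ### the lines `l` and `q` -/

theorem gl2_m0 (hds : ds = 1 ∨ ds = -1) (ht : t = 1 ∨ t = -1) (kq tok : ℕ) (kf : KF) :
    gl2 (m0 ds t kq tok kf) = true := by
  rcases hds with rfl | rfl <;> rcases ht with rfl | rfl <;> rcases kq with _ | kq <;>
    rcases tok with _ | _ | _ | tok <;> rfl

/-! ### the facts -/

/-- the sign of `c` -/
def Hcs (cs : Bool) (c : ℤ) : Prop := (cs = true ∧ 0 < c) ∨ (cs = false ∧ c < 0)

/-- comparison of `a` and `b` -/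
def Hfb (fb : ℕ) (a b c : ℤ) (D : ℝ) : Prop := match fb with
  | 0 => b < 2 * a
  | 1 => 2 * a ≤ b
  | _ => 2 * a ≤ b ∧ D < a - |(c : ℝ)|

/-- side conditions of a class -/
structure Sid (cs : Bool) (reg fb ej : ℕ) (a b c ds J E : ℤ) (D Z S I R : ℝ) : Prop where
  hcs : Hcs cs c
  hfb : Hfb fb a b c D
  I0 : 0 < I
  ID : I < D
  Z1 : -(b : ℝ) < Z
  Z2 : Z < b
  S1 : -(a : ℝ) < S
  S2 : S < a
  hreg : match reg with
    | 0 => |Z| < a - |(c : ℝ)| ∧ |(c : ℝ)| < S
    | 1 => |Z| < a - |(c : ℝ)| ∧ |(c : ℝ)| < -S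
    | 2 => b + ds * Z < D ∧ (b : ℝ) - a < ds * R
    | 3 => a + ds * S < D ∧ ds * R < (b : ℝ) - a
    | 4 => b + ds * Z < D ∧ ds * R = (b : ℝ) - a
    | 5 => D < b + ds * Z ∧ D < a + ds * S ∧
      (match fb with
        | 0 => ds * D < 2 * S
        | _ => ds * D < 2 * Z)
    | _ => True
  hej : match ej with
    | 0 => True
    | 1 => 2 * J < E
    | 2 => E < 2 * J
    | _ => J = 1 ∧ E = 2

theorem facs {Cl : ℤ → ℤ → ℤ → ℤ → ℝ → Prop} (W : World2 p a b c J ds l q E t D dl Cl)
    (hc : -a < c) {cs : Bool} {reg fb ej kq tok : ℕ} {wx ws : ℤ} {x : List ℝ} {Z S I R : ℝ}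
    (hf : FV (fQ ds t kq wx ws tok) x a b c p J E D Z S I R)
    (hs : Sid cs reg fb ej a b c ds J E D Z S I R)
    (ht : ∀ e ∈ ftok tok, 0 < evg x e) :
    ∀ e ∈ facQ cs ds t reg fb kq wx ws tok ej, 0 < evg x e := by
  have hn := hn ds
  have w1 : (2 : ℝ) ≤ a := by exact_mod_cast W.ha
  have w2 : (2 : ℝ) ≤ b := by exact_mod_cast W.hb
  have w3 : 2 * (a : ℝ) < p := by exact_mod_cast W.h2a
  have w4 : 2 * (b : ℝ) < p := by exact_mod_cast W.h2b
  have w5 : (1 : ℝ) ≤ J := by exact_mod_cast W.hJ
  have w6 := W.hJD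
  have w7 := W.hD
  have w8 := W.hE
  have w9 := W.hE'
  have s1 : -(a : ℝ) < c := by exact_mod_cast hc
  have s2 : (c : ℝ) < a := by exact_mod_cast W.hca'
  have eP := hf.P
  have eD := hf.D
  have eJ := hf.J
  have eE := hf.E
  have eI := hf.I
  have eZ := hf.Z
  have eS := hf.S
  have eR := hf.R
  have h1 := hs.I0
  have h2 := hs.ID
  have h3 := hs.Z1
  have h4 := hs.Z2
  have h5 := hs.S1
  have h6 := hs.S2
  have hcs := hs.hcs
  generalize hF : fQ ds t kq wx ws tok = f at *
  -- `a - |c|`
  have eK : evg x (aK cs) = a - |(c : ℝ)| := by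
    rcases hcs with ⟨rfl, hcs⟩ | ⟨rfl, hcs⟩
    · have : (0 : ℝ) < c := by exact_mod_cast hcs
      rw [abs_of_pos this]
      unfold aK
      simp only
      rw [hf.e4]
      push_cast
      ring
    · have : (c : ℝ) < 0 := by exact_mod_cast hcs
      rw [abs_of_neg this]
      unfold aK
      simp only
      rw [hf.e4]
      push_cast
      ring
  have eC0 : evg x [0, 0, 0, -1] = -(c : ℝ) := by
    rw [hf.e4]
    push_cast
    ring
  have eC1 : evg x [0, 0, 0, 1] = (c : ℝ) := by
    rw [hf.e4]
    push_cast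
    ring
  intro e he
  unfold facQ at he
  rw [hF] at he
  simp only [List.mem_append] at he
  rcases he with (((((he | he) | he) | he) | he) | he) | he
  · simp only [f0, List.mem_cons, List.not_mem_nil, or_false] at he
    rcases he with rfl | rfl | rfl | rfl | rfl | rfl | rfl | rfl | rfl <;>
      simp only [evg_axpy, hf.e2, hf.e3, hf.e4, eP, eD, eJ, eE] <;> push_cast <;> linarith
  · rcases hcs with ⟨rfl, hcs⟩ | ⟨rfl, hcs⟩
    · have : (0 : ℝ) < c := by exact_mod_cast hcs
      simp only [fc, List.mem_cons, List.not_mem_nil, or_false] at he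
      rcases he with rfl | rfl <;> rw [hf.e4] <;> push_cast <;> linarith
    · have : (c : ℝ) < 0 := by exact_mod_cast hcs
      simp only [fc, List.mem_cons, List.not_mem_nil, or_false] at he
      rcases he with rfl | rfl <;> rw [hf.e4] <;> push_cast <;> linarith
  · have hfb := hs.hfb
    rcases fb with _ | _ | fb <;> simp only [Hfb] at hfb
    · have : (b : ℝ) < 2 * a := by exact_mod_cast hfb
      simp only [fb0, List.mem_cons, List.not_mem_nil, or_false] at he
      subst he
      rw [hf.e3]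
      push_cast
      linarith
    · have : 2 * (a : ℝ) ≤ b := by exact_mod_cast hfb
      simp only [fb0, List.mem_cons, List.not_mem_nil, or_false] at he
      subst he
      rw [hf.e3]
      push_cast
      linarith
    · have : 2 * (a : ℝ) ≤ b := by exact_mod_cast hfb.1
      simp only [fb0, List.mem_cons, List.not_mem_nil, or_false] at he
      rcases he with rfl | rfl
      · rw [hf.e3]
        push_cast
        linarith
      · rw [evg_axpy, eK, eD]
        push_cast
        linarith [hfb.2]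
  · simp only [fk0, List.mem_cons, List.not_mem_nil, or_false] at he
    rcases he with rfl | rfl | rfl | rfl | rfl | rfl <;>
      simp only [evg_axpy, hf.e2, hf.e3, eP, eD, eI, eZ, eS] <;> push_cast <;> linarith
  · have hreg := hs.hreg
    rcases reg with _ | _ | _ | _ | _ | _ | reg
    · simp only at hreg
      obtain ⟨r1, r2⟩ := hreg
      rw [abs_lt] at r1
      rcases hcs with ⟨rfl, hcs⟩ | ⟨rfl, hcs⟩
      · have h0 : (0 : ℝ) < c := by exact_mod_cast hcs
        rw [abs_of_pos h0] at r1 r2 eK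
        simp only [freg, List.mem_cons, List.not_mem_nil, or_false] at he
        rcases he with rfl | rfl | rfl <;> simp only [evg_axpy, eK, eC0, eC1, eZ, eS] <;>
          push_cast <;> linarith [r1.1, r1.2]
      · have h0 : (c : ℝ) < 0 := by exact_mod_cast hcs
        rw [abs_of_neg h0] at r1 r2 eK
        simp only [freg, List.mem_cons, List.not_mem_nil, or_false] at he
        rcases he with rfl | rfl | rfl <;> simp only [evg_axpy, eK, eC0, eC1, eZ, eS] <;>
          push_cast <;> linarith [r1.1, r1.2]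
    · simp only at hreg
      obtain ⟨r1, r2⟩ := hreg
      rw [abs_lt] at r1
      rcases hcs with ⟨rfl, hcs⟩ | ⟨rfl, hcs⟩
      · have h0 : (0 : ℝ) < c := by exact_mod_cast hcs
        rw [abs_of_pos h0] at r1 r2 eK
        simp only [freg, List.mem_cons, List.not_mem_nil, or_false] at he
        rcases he with rfl | rfl | rfl <;> simp only [evg_axpy, eK, eC0, eC1, eZ, eS] <;>
          push_cast <;> linarith [r1.1, r1.2]
      · have h0 : (c : ℝ) < 0 := by exact_mod_cast hcs
        rw [abs_of_neg h0] at r1 r2 eK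
        simp only [freg, List.mem_cons, List.not_mem_nil, or_false] at he
        rcases he with rfl | rfl | rfl <;> simp only [evg_axpy, eK, eC0, eC1, eZ, eS] <;>
          push_cast <;> linarith [r1.1, r1.2]
    · simp only at hreg
      obtain ⟨r1, r2⟩ := hreg
      simp only [freg, List.mem_cons, List.not_mem_nil, or_false] at he
      rcases he with rfl | rfl <;> simp only [evg_axpy, hf.e3, eD, eZ, eR, hn] <;> push_cast <;>
        linarith
    · simp only at hreg
      obtain ⟨r1, r2⟩ := hreg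
      simp only [freg, List.mem_cons, List.not_mem_nil, or_false] at he
      rcases he with rfl | rfl <;> simp only [evg_axpy, hf.e2, hf.e3, eD, eS, eR, hn] <;>
        push_cast <;> linarith
    · simp only at hreg
      obtain ⟨r1, r2⟩ := hreg
      simp only [freg, List.mem_cons, List.not_mem_nil, or_false] at he
      rcases he with rfl | rfl | rfl <;> simp only [evg_axpy, hf.e3, eD, eZ, eR, hn] <;>
        push_cast <;> linarith
    · simp only at hreg
      obtain ⟨r1, r2, r3⟩ := hreg
      simp only [freg, List.mem_cons, List.not_mem_nil, or_false] at he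
      rcases he with rfl | rfl | rfl
      · simp only [evg_axpy, hf.e3, eD, eZ]
        push_cast
        linarith
      · simp only [evg_axpy, hf.e2, eD, eS]
        push_cast
        linarith
      · rcases fb with _ | fb
        · simp only [evg_axpy, eD, eS, hn, evg_nil]
          simp only at r3
          push_cast
          linarith
        · simp only [evg_axpy, eD, eZ, hn, evg_nil]
          simp only at r3
          push_cast
          linarith
    · simp only [freg, List.not_mem_nil] at he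
  · have hej := hs.hej
    rcases ej with _ | _ | _ | ej
    · simp only [fej, List.not_mem_nil] at he
    · have : 2 * (J : ℝ) < E := by exact_mod_cast hej
      simp only [fej, List.mem_cons, List.not_mem_nil, or_false] at he
      subst he
      rw [evg_axpy, eJ, eE]
      push_cast
      linarith
    · have : (E : ℝ) < 2 * J := by exact_mod_cast hej
      simp only [fej, List.mem_cons, List.not_mem_nil, or_false] at he
      subst he
      rw [evg_axpy, evg_axpy, eJ, eE, evg_nil]
      push_cast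
      linarith
    · simp only at hej
      have j1 : (J : ℝ) = 1 := by exact_mod_cast hej.1
      have j2 : (E : ℝ) = 2 := by exact_mod_cast hej.2
      simp only [fej, List.mem_cons, List.not_mem_nil, or_false] at he
      rcases he with rfl | rfl | rfl <;> rw [evg_axpy] <;> simp only [eJ, eE, j1, j2, hf.e1] <;>
        push_cast <;> norm_num
  · exact ht e he

end

end Helper12.TQ
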