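import Pool.Agent.Helper55.Q2.All
import Pool.Agent.Helper12.TQ.Asm

set_option autoImplicit false
set_option linter.all false

/-!
# All classes with `q < p + l` are closed
-/

noncomputable section

namespace Helper12.TQ

open Helper25.KW Helper55.KE Helper11.CT Helper55.Q2

theorem taG : ∀ (cs : Bool) (ds t : ℤ) (reg : ℕ), (ds = 1 ∨ ds = -1) → (t = 1 ∨ t = -1) → reg ≤ 1 →
    Closed cs ds t reg 1 0 0 0 0 0 := by
  intro cs ds t reg hds ht hr
  rcases cs with _ | _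
  · rcases hds with rfl | rfl
    · rcases ht with rfl | rfl
      · obtain rfl | rfl : reg = 0 ∨ reg = 1 := by omega
        · exact T_TA_m1_1_1_1_G.closed
        · exact T_TA_m1_1_1_m1_G.closed
      · obtain rfl | rfl : reg = 0 ∨ reg = 1 := by omega
        · exact T_TA_m1_m1_1_1_G.closed
        · exact T_TA_m1_m1_1_m1_G.closed
    · rcases ht with rfl | rfl
      · obtain rfl | rfl : reg = 0 ∨ reg = 1 := by omega
        · exact T_TA_m1_1_m1_1_G.closed
        · exact T_TA_m1_1_m1_m1_G.closed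
      · obtain rfl | rfl : reg = 0 ∨ reg = 1 := by omega
        · exact T_TA_m1_m1_m1_1_G.closed
        · exact T_TA_m1_m1_m1_m1_G.closed
  · rcases hds with rfl | rfl
    · rcases ht with rfl | rfl
      · obtain rfl | rfl : reg = 0 ∨ reg = 1 := by omega
        · exact T_TA_1_1_1_1_G.closed
        · exact T_TA_1_1_1_m1_G.closed
      · obtain rfl | rfl : reg = 0 ∨ reg = 1 := by omega
        · exact T_TA_1_m1_1_1_G.closed
        · exact T_TA_1_m1_1_m1_G.closed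
    · rcases ht with rfl | rfl
      · obtain rfl | rfl : reg = 0 ∨ reg = 1 := by omega
        · exact T_TA_1_1_m1_1_G.closed
        · exact T_TA_1_1_m1_m1_G.closed
      · obtain rfl | rfl : reg = 0 ∨ reg = 1 := by omega
        · exact T_TA_1_m1_m1_1_G.closed
        · exact T_TA_1_m1_m1_m1_G.closed

theorem ta1 : ∀ (cs : Bool) (ds t : ℤ) (reg : ℕ), (ds = 1 ∨ ds = -1) → (t = 1 ∨ t = -1) → reg ≤ 1 →
    ¬ Mis1 cs ds t reg → Closed cs ds t reg 1 1 0 (wsA t ds) 0 0 := by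
  intro cs ds t reg hds ht hr hm
  rcases cs with _ | _
  · rcases hds with rfl | rfl
    · rcases ht with rfl | rfl
      · obtain rfl | rfl : reg = 0 ∨ reg = 1 := by omega
        · exact T_TA_m1_1_1_1_Q1_0.closed
        · exact T_TA_m1_1_1_m1_Q1_0.closed
      · obtain rfl | rfl : reg = 0 ∨ reg = 1 := by omega
        · exact T_TA_m1_m1_1_1_Q1_0.closed
        · exact T_TA_m1_m1_1_m1_Q1_0.closed
    · rcases ht with rfl | rfl
      · obtain rfl | rfl : reg = 0 ∨ reg = 1 := by omega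
        · exact T_TA_m1_1_m1_1_Q1_0.closed
        · exact T_TA_m1_1_m1_m1_Q1_0.closed
      · obtain rfl | rfl : reg = 0 ∨ reg = 1 := by omega
        · exact T_TA_m1_m1_m1_1_Q1_0.closed
        · exact absurd (Or.inr ⟨rfl, rfl, rfl, rfl⟩) hm
  · rcases hds with rfl | rfl
    · rcases ht with rfl | rfl
      · obtain rfl | rfl : reg = 0 ∨ reg = 1 := by omega
        · exact absurd (Or.inl ⟨rfl, rfl, rfl, rfl⟩) hm
        · exact T_TA_1_1_1_m1_Q1_0.closed
      · obtain rfl | rfl : reg = 0 ∨ reg = 1 := by omega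
        · exact T_TA_1_m1_1_1_Q1_0.closed
        · exact T_TA_1_m1_1_m1_Q1_0.closed
    · rcases ht with rfl | rfl
      · obtain rfl | rfl : reg = 0 ∨ reg = 1 := by omega
        · exact T_TA_1_1_m1_1_Q1_0.closed
        · exact T_TA_1_1_m1_m1_Q1_0.closed
      · obtain rfl | rfl : reg = 0 ∨ reg = 1 := by omega
        · exact T_TA_1_m1_m1_1_Q1_0.closed
        · exact T_TA_1_m1_m1_m1_Q1_0.closed

theorem ta2 : ∀ (cs : Bool) (ds t : ℤ) (reg : ℕ) (wx : ℤ), (ds = 1 ∨ ds = -1) → (t = 1 ∨ t = -1) →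
    reg ≤ 1 → (wx = 0 ∨ wx = -ds) → ¬ (wx = 0 ∧ Mis2 cs ds t reg) →
    Closed cs ds t reg 1 2 wx (wsB t ds) 0 0 := by
  intro cs ds t reg wx hds ht hr hx hm
  rcases cs with _ | _
  · rcases hds with rfl | rfl
    · rcases ht with rfl | rfl
      · obtain rfl | rfl : reg = 0 ∨ reg = 1 := by omega
        · rcases hx with rfl | rfl
          · exact T_TA_m1_1_1_1_Q2_0.closed
          · exact T_TA_m1_1_1_1_Q2_m1.closed
        · rcases hx with rfl | rfl
          · exact T_TA_m1_1_1_m1_Q2_0.closed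
          · exact T_TA_m1_1_1_m1_Q2_m1.closed
      · obtain rfl | rfl : reg = 0 ∨ reg = 1 := by omega
        · rcases hx with rfl | rfl
          · exact T_TA_m1_m1_1_1_Q2_0.closed
          · exact T_TA_m1_m1_1_1_Q2_m1.closed
        · rcases hx with rfl | rfl
          · exact T_TA_m1_m1_1_m1_Q2_0.closed
          · exact T_TA_m1_m1_1_m1_Q2_m1.closed
    · rcases ht with rfl | rfl
      · obtain rfl | rfl : reg = 0 ∨ reg = 1 := by omega
        · rcases hx with rfl | rfl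
          · exact T_TA_m1_1_m1_1_Q2_0.closed
          · exact T_TA_m1_1_m1_1_Q2_1.closed
        · rcases hx with rfl | rfl
          · exact T_TA_m1_1_m1_m1_Q2_0.closed
          · exact T_TA_m1_1_m1_m1_Q2_1.closed
      · obtain rfl | rfl : reg = 0 ∨ reg = 1 := by omega
        · rcases hx with rfl | rfl
          · exact absurd ⟨rfl, Or.inr ⟨rfl, rfl, rfl, rfl⟩⟩ hm
          · exact T_TA_m1_m1_m1_1_Q2_1.closed
        · rcases hx with rfl | rfl
          · exact T_TA_m1_m1_m1_m1_Q2_0.closed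
          · exact T_TA_m1_m1_m1_m1_Q2_1.closed
  · rcases hds with rfl | rfl
    · rcases ht with rfl | rfl
      · obtain rfl | rfl : reg = 0 ∨ reg = 1 := by omega
        · rcases hx with rfl | rfl
          · exact T_TA_1_1_1_1_Q2_0.closed
          · exact T_TA_1_1_1_1_Q2_m1.closed
        · rcases hx with rfl | rfl
          · exact absurd ⟨rfl, Or.inl ⟨rfl, rfl, rfl, rfl⟩⟩ hm
          · exact T_TA_1_1_1_m1_Q2_m1.closed
      · obtain rfl | rfl : reg = 0 ∨ reg = 1 := by omega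
        · rcases hx with rfl | rfl
          · exact T_TA_1_m1_1_1_Q2_0.closed
          · exact T_TA_1_m1_1_1_Q2_m1.closed
        · rcases hx with rfl | rfl
          · exact T_TA_1_m1_1_m1_Q2_0.closed
          · exact T_TA_1_m1_1_m1_Q2_m1.closed
    · rcases ht with rfl | rfl
      · obtain rfl | rfl : reg = 0 ∨ reg = 1 := by omega
        · rcases hx with rfl | rfl
          · exact T_TA_1_1_m1_1_Q2_0.closed
          · exact T_TA_1_1_m1_1_Q2_1.closed
        · rcases hx with rfl | rfl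
          · exact T_TA_1_1_m1_m1_Q2_0.closed
          · exact T_TA_1_1_m1_m1_Q2_1.closed
      · obtain rfl | rfl : reg = 0 ∨ reg = 1 := by omega
        · rcases hx with rfl | rfl
          · exact T_TA_1_m1_m1_1_Q2_0.closed
          · exact T_TA_1_m1_m1_1_Q2_1.closed
        · rcases hx with rfl | rfl
          · exact T_TA_1_m1_m1_m1_Q2_0.closed
          · exact T_TA_1_m1_m1_m1_Q2_1.closed

theorem ta3 : ∀ (cs : Bool) (ds t : ℤ) (reg : ℕ) (ws : ℤ), (ds = 1 ∨ ds = -1) → (t = 1 ∨ t = -1) →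
    reg ≤ 1 → (ws = -1 ∨ ws = 0 ∨ ws = 1) → Closed cs ds t reg 1 3 (wxC ds) ws 0 0 := by
  intro cs ds t reg ws hds ht hr hw
  rcases cs with _ | _
  · rcases hds with rfl | rfl
    · rcases ht with rfl | rfl
      · obtain rfl | rfl : reg = 0 ∨ reg = 1 := by omega
        · rcases hw with rfl | rfl | rfl
          · exact T_TA_m1_1_1_1_Q3_m1.closed
          · exact T_TA_m1_1_1_1_Q3_0.closed
          · exact T_TA_m1_1_1_1_Q3_1.closed
        · rcases hw with rfl | rfl | rfl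
          · exact T_TA_m1_1_1_m1_Q3_m1.closed
          · exact T_TA_m1_1_1_m1_Q3_0.closed
          · exact T_TA_m1_1_1_m1_Q3_1.closed
      · obtain rfl | rfl : reg = 0 ∨ reg = 1 := by omega
        · rcases hw with rfl | rfl | rfl
          · exact T_TA_m1_m1_1_1_Q3_m1.closed
          · exact T_TA_m1_m1_1_1_Q3_0.closed
          · exact T_TA_m1_m1_1_1_Q3_1.closed
        · rcases hw with rfl | rfl | rfl
          · exact T_TA_m1_m1_1_m1_Q3_m1.closed
          · exact T_TA_m1_m1_1_m1_Q3_0.closed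
          · exact T_TA_m1_m1_1_m1_Q3_1.closed
    · rcases ht with rfl | rfl
      · obtain rfl | rfl : reg = 0 ∨ reg = 1 := by omega
        · rcases hw with rfl | rfl | rfl
          · exact T_TA_m1_1_m1_1_Q3_m1.closed
          · exact T_TA_m1_1_m1_1_Q3_0.closed
          · exact T_TA_m1_1_m1_1_Q3_1.closed
        · rcases hw with rfl | rfl | rfl
          · exact T_TA_m1_1_m1_m1_Q3_m1.closed
          · exact T_TA_m1_1_m1_m1_Q3_0.closed
          · exact T_TA_m1_1_m1_m1_Q3_1.closed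
      · obtain rfl | rfl : reg = 0 ∨ reg = 1 := by omega
        · rcases hw with rfl | rfl | rfl
          · exact T_TA_m1_m1_m1_1_Q3_m1.closed
          · exact T_TA_m1_m1_m1_1_Q3_0.closed
          · exact T_TA_m1_m1_m1_1_Q3_1.closed
        · rcases hw with rfl | rfl | rfl
          · exact T_TA_m1_m1_m1_m1_Q3_m1.closed
          · exact T_TA_m1_m1_m1_m1_Q3_0.closed
          · exact T_TA_m1_m1_m1_m1_Q3_1.closed
  · rcases hds with rfl | rfl
    · rcases ht with rfl | rfl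
      · obtain rfl | rfl : reg = 0 ∨ reg = 1 := by omega
        · rcases hw with rfl | rfl | rfl
          · exact T_TA_1_1_1_1_Q3_m1.closed
          · exact T_TA_1_1_1_1_Q3_0.closed
          · exact T_TA_1_1_1_1_Q3_1.closed
        · rcases hw with rfl | rfl | rfl
          · exact T_TA_1_1_1_m1_Q3_m1.closed
          · exact T_TA_1_1_1_m1_Q3_0.closed
          · exact T_TA_1_1_1_m1_Q3_1.closed
      · obtain rfl | rfl : reg = 0 ∨ reg = 1 := by omega
        · rcases hw with rfl | rfl | rfl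
          · exact T_TA_1_m1_1_1_Q3_m1.closed
          · exact T_TA_1_m1_1_1_Q3_0.closed
          · exact T_TA_1_m1_1_1_Q3_1.closed
        · rcases hw with rfl | rfl | rfl
          · exact T_TA_1_m1_1_m1_Q3_m1.closed
          · exact T_TA_1_m1_1_m1_Q3_0.closed
          · exact T_TA_1_m1_1_m1_Q3_1.closed
    · rcases ht with rfl | rfl
      · obtain rfl | rfl : reg = 0 ∨ reg = 1 := by omega
        · rcases hw with rfl | rfl | rfl
          · exact T_TA_1_1_m1_1_Q3_m1.closed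
          · exact T_TA_1_1_m1_1_Q3_0.closed
          · exact T_TA_1_1_m1_1_Q3_1.closed
        · rcases hw with rfl | rfl | rfl
          · exact T_TA_1_1_m1_m1_Q3_m1.closed
          · exact T_TA_1_1_m1_m1_Q3_0.closed
          · exact T_TA_1_1_m1_m1_Q3_1.closed
      · obtain rfl | rfl : reg = 0 ∨ reg = 1 := by omega
        · rcases hw with rfl | rfl | rfl
          · exact T_TA_1_m1_m1_1_Q3_m1.closed
          · exact T_TA_1_m1_m1_1_Q3_0.closed
          · exact T_TA_1_m1_m1_1_Q3_1.closed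
        · rcases hw with rfl | rfl | rfl
          · exact T_TA_1_m1_m1_m1_Q3_m1.closed
          · exact T_TA_1_m1_m1_m1_Q3_0.closed
          · exact T_TA_1_m1_m1_m1_Q3_1.closed

theorem tb : ∀ (cs : Bool) (ds t : ℤ), (ds = 1 ∨ ds = -1) → (t = 1 ∨ t = -1) → BF cs ds t 0 := by
  intro cs ds t hds ht reg h1 h2
  rcases cs with _ | _
  · rcases hds with rfl | rfl
    · rcases ht with rfl | rfl
      · obtain rfl | rfl | rfl | rfl : reg = 2 ∨ reg = 3 ∨ reg = 4 ∨ reg = 5 := by omega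
        · exact ⟨T_S1B_m1_1_1_V_G.closed, Or.inl T_S1B_m1_1_1_V_Q1_0.closed, fun wx hx => hx.elim
        (fun h => by subst h; exact Or.inl T_S1B_m1_1_1_V_Q2_0.closed)
        (fun h => by subst h; exact Or.inl T_S1B_m1_1_1_V_Q2_m1.closed)⟩
        · exact ⟨T_S1B_m1_1_1_D_G.closed, Or.inl T_S1B_m1_1_1_D_Q1_0.closed, fun wx hx => hx.elim
        (fun h => by subst h; exact Or.inl T_S1B_m1_1_1_D_Q2_0.closed)
        (fun h => by subst h; exact Or.inl T_S1B_m1_1_1_D_Q2_m1.closed)⟩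
        · exact ⟨T_S1B_m1_1_1_C_G.closed, Or.inl T_S1B_m1_1_1_C_Q1_0.closed, fun wx hx => hx.elim
        (fun h => by subst h; exact Or.inl T_S1B_m1_1_1_C_Q2_0.closed)
        (fun h => by subst h; exact Or.inl T_S1B_m1_1_1_C_Q2_m1.closed)⟩
        · exact ⟨T_S2B_m1_1_1_G.closed, Or.inl T_S2B_m1_1_1_Q1_0.closed, fun wx hx => hx.elim
        (fun h => by subst h; exact Or.inl T_S2B_m1_1_1_Q2_0.closed)
        (fun h => by subst h; exact Or.inl T_S2B_m1_1_1_Q2_m1.closed)⟩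
      · obtain rfl | rfl | rfl | rfl : reg = 2 ∨ reg = 3 ∨ reg = 4 ∨ reg = 5 := by omega
        · exact ⟨T_S1B_m1_m1_1_V_G.closed, Or.inl T_S1B_m1_m1_1_V_Q1_0.closed, fun wx hx => hx.elim
        (fun h => by subst h; exact Or.inl T_S1B_m1_m1_1_V_Q2_0.closed)
        (fun h => by subst h; exact Or.inl T_S1B_m1_m1_1_V_Q2_m1.closed)⟩
        · exact ⟨T_S1B_m1_m1_1_D_G.closed, Or.inl T_S1B_m1_m1_1_D_Q1_0.closed, fun wx hx => hx.elim
        (fun h => by subst h; exact Or.inl T_S1B_m1_m1_1_D_Q2_0.closed)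
        (fun h => by subst h; exact Or.inl T_S1B_m1_m1_1_D_Q2_m1.closed)⟩
        · exact ⟨T_S1B_m1_m1_1_C_G.closed, Or.inl T_S1B_m1_m1_1_C_Q1_0.closed, fun wx hx => hx.elim
        (fun h => by subst h; exact Or.inl T_S1B_m1_m1_1_C_Q2_0.closed)
        (fun h => by subst h; exact Or.inl T_S1B_m1_m1_1_C_Q2_m1.closed)⟩
        · exact ⟨T_S2B_m1_m1_1_G.closed, Or.inl T_S2B_m1_m1_1_Q1_0.closed, fun wx hx => hx.elim
        (fun h => by subst h; exact Or.inl T_S2B_m1_m1_1_Q2_0.closed)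
        (fun h => by subst h; exact Or.inl T_S2B_m1_m1_1_Q2_m1.closed)⟩
    · rcases ht with rfl | rfl
      · obtain rfl | rfl | rfl | rfl : reg = 2 ∨ reg = 3 ∨ reg = 4 ∨ reg = 5 := by omega
        · exact ⟨T_S1B_m1_1_m1_V_G.closed, Or.inl T_S1B_m1_1_m1_V_Q1_0.closed, fun wx hx => hx.elim
        (fun h => by subst h; exact Or.inl T_S1B_m1_1_m1_V_Q2_0.closed)
        (fun h => by subst h; exact Or.inl T_S1B_m1_1_m1_V_Q2_1.closed)⟩
        · exact ⟨T_S1B_m1_1_m1_D_G.closed, Or.inl T_S1B_m1_1_m1_D_Q1_0.closed, fun wx hx => hx.elim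
        (fun h => by subst h; exact Or.inl T_S1B_m1_1_m1_D_Q2_0.closed)
        (fun h => by subst h; exact Or.inl T_S1B_m1_1_m1_D_Q2_1.closed)⟩
        · exact ⟨T_S1B_m1_1_m1_C_G.closed, Or.inl T_S1B_m1_1_m1_C_Q1_0.closed, fun wx hx => hx.elim
        (fun h => by subst h; exact Or.inl T_S1B_m1_1_m1_C_Q2_0.closed)
        (fun h => by subst h; exact Or.inl T_S1B_m1_1_m1_C_Q2_1.closed)⟩
        · exact ⟨T_S2B_m1_1_m1_G.closed, Or.inl T_S2B_m1_1_m1_Q1_0.closed, fun wx hx => hx.elim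
        (fun h => by subst h; exact Or.inl T_S2B_m1_1_m1_Q2_0.closed)
        (fun h => by subst h; exact Or.inl T_S2B_m1_1_m1_Q2_1.closed)⟩
      · obtain rfl | rfl | rfl | rfl : reg = 2 ∨ reg = 3 ∨ reg = 4 ∨ reg = 5 := by omega
        · exact ⟨T_S1B_m1_m1_m1_V_G.closed, Or.inl T_S1B_m1_m1_m1_V_Q1_0.closed, fun wx hx => hx.elim
        (fun h => by subst h; exact Or.inl T_S1B_m1_m1_m1_V_Q2_0.closed)
        (fun h => by subst h; exact Or.inl T_S1B_m1_m1_m1_V_Q2_1.closed)⟩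
        · exact ⟨T_S1B_m1_m1_m1_D_G.closed, Or.inl T_S1B_m1_m1_m1_D_Q1_0.closed, fun wx hx => hx.elim
        (fun h => by subst h; exact Or.inl T_S1B_m1_m1_m1_D_Q2_0.closed)
        (fun h => by subst h; exact Or.inl T_S1B_m1_m1_m1_D_Q2_1.closed)⟩
        · exact ⟨T_S1B_m1_m1_m1_C_G.closed, Or.inl T_S1B_m1_m1_m1_C_Q1_0.closed, fun wx hx => hx.elim
        (fun h => by subst h; exact Or.inl T_S1B_m1_m1_m1_C_Q2_0.closed)
        (fun h => by subst h; exact Or.inl T_S1B_m1_m1_m1_C_Q2_1.closed)⟩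
        · exact ⟨T_S2B_m1_m1_m1_G.closed, Or.inl T_S2B_m1_m1_m1_Q1_0.closed, fun wx hx => hx.elim
        (fun h => by subst h; exact Or.inr ⟨T_S2B_m1_m1_m1_Q2_0_u.closed, T_S2B_m1_m1_m1_Q2_0_v.closed, T_S2B_m1_m1_m1_Q2_0_w.closed⟩)
        (fun h => by subst h; exact Or.inl T_S2B_m1_m1_m1_Q2_1.closed)⟩
  · rcases hds with rfl | rfl
    · rcases ht with rfl | rfl
      · obtain rfl | rfl | rfl | rfl : reg = 2 ∨ reg = 3 ∨ reg = 4 ∨ reg = 5 := by omega
        · exact ⟨T_S1B_1_1_1_V_G.closed, Or.inl T_S1B_1_1_1_V_Q1_0.closed, fun wx hx => hx.elim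
        (fun h => by subst h; exact Or.inl T_S1B_1_1_1_V_Q2_0.closed)
        (fun h => by subst h; exact Or.inl T_S1B_1_1_1_V_Q2_m1.closed)⟩
        · exact ⟨T_S1B_1_1_1_D_G.closed, Or.inl T_S1B_1_1_1_D_Q1_0.closed, fun wx hx => hx.elim
        (fun h => by subst h; exact Or.inl T_S1B_1_1_1_D_Q2_0.closed)
        (fun h => by subst h; exact Or.inl T_S1B_1_1_1_D_Q2_m1.closed)⟩
        · exact ⟨T_S1B_1_1_1_C_G.closed, Or.inl T_S1B_1_1_1_C_Q1_0.closed, fun wx hx => hx.elim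
        (fun h => by subst h; exact Or.inl T_S1B_1_1_1_C_Q2_0.closed)
        (fun h => by subst h; exact Or.inl T_S1B_1_1_1_C_Q2_m1.closed)⟩
        · exact ⟨T_S2B_1_1_1_G.closed, Or.inr ⟨T_S2B_1_1_1_Q1_0_u.closed, T_S2B_1_1_1_Q1_0_v.closed, T_S2B_1_1_1_Q1_0_w.closed⟩, fun wx hx => hx.elim
        (fun h => by subst h; exact Or.inl T_S2B_1_1_1_Q2_0.closed)
        (fun h => by subst h; exact Or.inl T_S2B_1_1_1_Q2_m1.closed)⟩
      · obtain rfl | rfl | rfl | rfl : reg = 2 ∨ reg = 3 ∨ reg = 4 ∨ reg = 5 := by omega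
        · exact ⟨T_S1B_1_m1_1_V_G.closed, Or.inl T_S1B_1_m1_1_V_Q1_0.closed, fun wx hx => hx.elim
        (fun h => by subst h; exact Or.inl T_S1B_1_m1_1_V_Q2_0.closed)
        (fun h => by subst h; exact Or.inl T_S1B_1_m1_1_V_Q2_m1.closed)⟩
        · exact ⟨T_S1B_1_m1_1_D_G.closed, Or.inl T_S1B_1_m1_1_D_Q1_0.closed, fun wx hx => hx.elim
        (fun h => by subst h; exact Or.inl T_S1B_1_m1_1_D_Q2_0.closed)
        (fun h => by subst h; exact Or.inl T_S1B_1_m1_1_D_Q2_m1.closed)⟩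
        · exact ⟨T_S1B_1_m1_1_C_G.closed, Or.inl T_S1B_1_m1_1_C_Q1_0.closed, fun wx hx => hx.elim
        (fun h => by subst h; exact Or.inl T_S1B_1_m1_1_C_Q2_0.closed)
        (fun h => by subst h; exact Or.inl T_S1B_1_m1_1_C_Q2_m1.closed)⟩
        · exact ⟨T_S2B_1_m1_1_G.closed, Or.inl T_S2B_1_m1_1_Q1_0.closed, fun wx hx => hx.elim
        (fun h => by subst h; exact Or.inl T_S2B_1_m1_1_Q2_0.closed)
        (fun h => by subst h; exact Or.inl T_S2B_1_m1_1_Q2_m1.closed)⟩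
    · rcases ht with rfl | rfl
      · obtain rfl | rfl | rfl | rfl : reg = 2 ∨ reg = 3 ∨ reg = 4 ∨ reg = 5 := by omega
        · exact ⟨T_S1B_1_1_m1_V_G.closed, Or.inl T_S1B_1_1_m1_V_Q1_0.closed, fun wx hx => hx.elim
        (fun h => by subst h; exact Or.inl T_S1B_1_1_m1_V_Q2_0.closed)
        (fun h => by subst h; exact Or.inl T_S1B_1_1_m1_V_Q2_1.closed)⟩
        · exact ⟨T_S1B_1_1_m1_D_G.closed, Or.inl T_S1B_1_1_m1_D_Q1_0.closed, fun wx hx => hx.elim
        (fun h => by subst h; exact Or.inl T_S1B_1_1_m1_D_Q2_0.closed)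
        (fun h => by subst h; exact Or.inl T_S1B_1_1_m1_D_Q2_1.closed)⟩
        · exact ⟨T_S1B_1_1_m1_C_G.closed, Or.inl T_S1B_1_1_m1_C_Q1_0.closed, fun wx hx => hx.elim
        (fun h => by subst h; exact Or.inl T_S1B_1_1_m1_C_Q2_0.closed)
        (fun h => by subst h; exact Or.inl T_S1B_1_1_m1_C_Q2_1.closed)⟩
        · exact ⟨T_S2B_1_1_m1_G.closed, Or.inl T_S2B_1_1_m1_Q1_0.closed, fun wx hx => hx.elim
        (fun h => by subst h; exact Or.inl T_S2B_1_1_m1_Q2_0.closed)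
        (fun h => by subst h; exact Or.inl T_S2B_1_1_m1_Q2_1.closed)⟩
      · obtain rfl | rfl | rfl | rfl : reg = 2 ∨ reg = 3 ∨ reg = 4 ∨ reg = 5 := by omega
        · exact ⟨T_S1B_1_m1_m1_V_G.closed, Or.inl T_S1B_1_m1_m1_V_Q1_0.closed, fun wx hx => hx.elim
        (fun h => by subst h; exact Or.inl T_S1B_1_m1_m1_V_Q2_0.closed)
        (fun h => by subst h; exact Or.inl T_S1B_1_m1_m1_V_Q2_1.closed)⟩
        · exact ⟨T_S1B_1_m1_m1_D_G.closed, Or.inl T_S1B_1_m1_m1_D_Q1_0.closed, fun wx hx => hx.elim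
        (fun h => by subst h; exact Or.inl T_S1B_1_m1_m1_D_Q2_0.closed)
        (fun h => by subst h; exact Or.inl T_S1B_1_m1_m1_D_Q2_1.closed)⟩
        · exact ⟨T_S1B_1_m1_m1_C_G.closed, Or.inl T_S1B_1_m1_m1_C_Q1_0.closed, fun wx hx => hx.elim
        (fun h => by subst h; exact Or.inl T_S1B_1_m1_m1_C_Q2_0.closed)
        (fun h => by subst h; exact Or.inl T_S1B_1_m1_m1_C_Q2_1.closed)⟩
        · exact ⟨T_S2B_1_m1_m1_G.closed, Or.inl T_S2B_1_m1_m1_Q1_0.closed, fun wx hx => hx.elim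
        (fun h => by subst h; exact Or.inl T_S2B_1_m1_m1_Q2_0.closed)
        (fun h => by subst h; exact Or.inl T_S2B_1_m1_m1_Q2_1.closed)⟩

theorem tf : ∀ (cs : Bool) (ds t : ℤ), Spc cs ds t → BF cs ds t 2 := by
  intro cs ds t hs reg h1 h2
  rcases hs with ⟨rfl, rfl, rfl⟩ | ⟨rfl, rfl, rfl⟩
  · obtain rfl | rfl | rfl | rfl : reg = 2 ∨ reg = 3 ∨ reg = 4 ∨ reg = 5 := by omega
    · exact ⟨T_S1F_1_1_1_V_G.closed, Or.inl T_S1F_1_1_1_V_Q1_0.closed, fun wx hx => hx.elim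
        (fun h => by subst h; exact Or.inl T_S1F_1_1_1_V_Q2_0.closed)
        (fun h => by subst h; exact Or.inl T_S1F_1_1_1_V_Q2_m1.closed)⟩
    · exact ⟨T_S1F_1_1_1_D_G.closed, Or.inl T_S1F_1_1_1_D_Q1_0.closed, fun wx hx => hx.elim
        (fun h => by subst h; exact Or.inl T_S1F_1_1_1_D_Q2_0.closed)
        (fun h => by subst h; exact Or.inl T_S1F_1_1_1_D_Q2_m1.closed)⟩
    · exact ⟨T_S1F_1_1_1_C_G.closed, Or.inl T_S1F_1_1_1_C_Q1_0.closed, fun wx hx => hx.elim
        (fun h => by subst h; exact Or.inl T_S1F_1_1_1_C_Q2_0.closed)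
        (fun h => by subst h; exact Or.inl T_S1F_1_1_1_C_Q2_m1.closed)⟩
    · exact ⟨T_S2F_1_1_1_G.closed, Or.inl T_S2F_1_1_1_Q1_0.closed, fun wx hx => hx.elim
        (fun h => by subst h; exact Or.inr ⟨T_S2F_1_1_1_Q2_0_u.closed, T_S2F_1_1_1_Q2_0_v.closed, T_S2F_1_1_1_Q2_0_w.closed⟩)
        (fun h => by subst h; exact Or.inl T_S2F_1_1_1_Q2_m1.closed)⟩
  · obtain rfl | rfl | rfl | rfl : reg = 2 ∨ reg = 3 ∨ reg = 4 ∨ reg = 5 := by omega
    · exact ⟨T_S1F_m1_m1_m1_V_G.closed, Or.inl T_S1F_m1_m1_m1_V_Q1_0.closed, fun wx hx => hx.elim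
        (fun h => by subst h; exact Or.inl T_S1F_m1_m1_m1_V_Q2_0.closed)
        (fun h => by subst h; exact Or.inl T_S1F_m1_m1_m1_V_Q2_1.closed)⟩
    · exact ⟨T_S1F_m1_m1_m1_D_G.closed, Or.inl T_S1F_m1_m1_m1_D_Q1_0.closed, fun wx hx => hx.elim
        (fun h => by subst h; exact Or.inl T_S1F_m1_m1_m1_D_Q2_0.closed)
        (fun h => by subst h; exact Or.inl T_S1F_m1_m1_m1_D_Q2_1.closed)⟩
    · exact ⟨T_S1F_m1_m1_m1_C_G.closed, Or.inl T_S1F_m1_m1_m1_C_Q1_0.closed, fun wx hx => hx.elim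
        (fun h => by subst h; exact Or.inl T_S1F_m1_m1_m1_C_Q2_0.closed)
        (fun h => by subst h; exact Or.inl T_S1F_m1_m1_m1_C_Q2_1.closed)⟩
    · exact ⟨T_S2F_m1_m1_m1_G.closed, Or.inr ⟨T_S2F_m1_m1_m1_Q1_0_u.closed, T_S2F_m1_m1_m1_Q1_0_v.closed, T_S2F_m1_m1_m1_Q1_0_w.closed⟩, fun wx hx => hx.elim
        (fun h => by subst h; exact Or.inl T_S2F_m1_m1_m1_Q2_0.closed)
        (fun h => by subst h; exact Or.inl T_S2F_m1_m1_m1_Q2_1.closed)⟩

theorem tp1 : ∀ (cs : Bool) (ds t : ℤ) (ws : ℤ), (ds = 1 ∨ ds = -1) → (t = 1 ∨ t = -1) →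
    (ws = -1 ∨ ws = 0 ∨ ws = 1) → ClosedT cs ds t 6 0 4 (wxD ds) ws 0 := by
  intro cs ds t ws hds ht hw
  rcases cs with _ | _
  · rcases hds with rfl | rfl
    · rcases ht with rfl | rfl
      · rcases hw with rfl | rfl | rfl
        · exact Or.inl T_PLB1_m1_1_1_m1.closed
        · exact Or.inl T_PLB1_m1_1_1_0.closed
        · exact Or.inl T_PLB1_m1_1_1_1.closed
      · rcases hw with rfl | rfl | rfl
        · exact Or.inl T_PLB1_m1_m1_1_m1.closed
        · exact Or.inl T_PLB1_m1_m1_1_0.closed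
        · exact Or.inl T_PLB1_m1_m1_1_1.closed
    · rcases ht with rfl | rfl
      · rcases hw with rfl | rfl | rfl
        · exact Or.inl T_PLB1_m1_1_m1_m1.closed
        · exact Or.inl T_PLB1_m1_1_m1_0.closed
        · exact Or.inl T_PLB1_m1_1_m1_1.closed
      · rcases hw with rfl | rfl | rfl
        · exact Or.inl T_PLB1_m1_m1_m1_m1.closed
        · exact Or.inl T_PLB1_m1_m1_m1_0.closed
        · exact Or.inl T_PLB1_m1_m1_m1_1.closed
  · rcases hds with rfl | rfl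
    · rcases ht with rfl | rfl
      · rcases hw with rfl | rfl | rfl
        · exact Or.inl T_PLB1_1_1_1_m1.closed
        · exact Or.inl T_PLB1_1_1_1_0.closed
        · exact Or.inl T_PLB1_1_1_1_1.closed
      · rcases hw with rfl | rfl | rfl
        · exact Or.inl T_PLB1_1_m1_1_m1.closed
        · exact Or.inl T_PLB1_1_m1_1_0.closed
        · exact Or.inl T_PLB1_1_m1_1_1.closed
    · rcases ht with rfl | rfl
      · rcases hw with rfl | rfl | rfl
        · exact Or.inl T_PLB1_1_1_m1_m1.closed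
        · exact Or.inr ⟨T_PLB1_1_1_m1_0_u.closed, T_PLB1_1_1_m1_0_v.closed, T_PLB1_1_1_m1_0_w.closed⟩
        · exact Or.inl T_PLB1_1_1_m1_1.closed
      · rcases hw with rfl | rfl | rfl
        · exact Or.inl T_PLB1_1_m1_m1_m1.closed
        · exact Or.inr ⟨T_PLB1_1_m1_m1_0_u.closed, T_PLB1_1_m1_m1_0_v.closed, T_PLB1_1_m1_m1_0_w.closed⟩
        · exact Or.inl T_PLB1_1_m1_m1_1.closed

theorem tp2 : ∀ (cs : Bool) (ds t : ℤ) (ws : ℤ), (ds = 1 ∨ ds = -1) → (t = 1 ∨ t = -1) →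
    (ws = -1 ∨ ws = 0 ∨ ws = 1) →
    ClosedT cs ds t 6 0 3 (wxC ds) ws 0 ∨ ClosedE cs ds t 6 0 3 (wxC ds) ws := by
  intro cs ds t ws hds ht hw
  rcases cs with _ | _
  · rcases hds with rfl | rfl
    · rcases ht with rfl | rfl
      · rcases hw with rfl | rfl | rfl
        · exact Or.inl (Or.inl T_PLB2_m1_1_1_m1.closed)
        · exact Or.inl (Or.inl T_PLB2_m1_1_1_0.closed)
        · exact Or.inl (Or.inr ⟨T_PLB2_m1_1_1_1_u.closed, T_PLB2_m1_1_1_1_v.closed, T_PLB2_m1_1_1_1_w.closed⟩)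
      · rcases hw with rfl | rfl | rfl
        · exact Or.inl (Or.inl T_PLB2_m1_m1_1_m1.closed)
        · exact Or.inr ⟨T_PLB2_m1_m1_1_0_w.closed, T_PLB2_m1_m1_1_0_ue1.closed, T_PLB2_m1_m1_1_0_ue2.closed, T_PLB2_m1_m1_1_0_ve1.closed, T_PLB2_m1_m1_1_0_ve2.closed, T_PLB2_m1_m1_1_0_e3.closed⟩
        · exact Or.inl (Or.inl T_PLB2_m1_m1_1_1.closed)
    · rcases ht with rfl | rfl
      · rcases hw with rfl | rfl | rfl
        · exact Or.inl (Or.inl T_PLB2_m1_1_m1_m1.closed)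
        · exact Or.inl (Or.inl T_PLB2_m1_1_m1_0.closed)
        · exact Or.inl (Or.inl T_PLB2_m1_1_m1_1.closed)
      · rcases hw with rfl | rfl | rfl
        · exact Or.inl (Or.inl T_PLB2_m1_m1_m1_m1.closed)
        · exact Or.inl (Or.inl T_PLB2_m1_m1_m1_0.closed)
        · exact Or.inl (Or.inl T_PLB2_m1_m1_m1_1.closed)
  · rcases hds with rfl | rfl
    · rcases ht with rfl | rfl
      · rcases hw with rfl | rfl | rfl
        · exact Or.inl (Or.inl T_PLB2_1_1_1_m1.closed)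
        · exact Or.inl (Or.inl T_PLB2_1_1_1_0.closed)
        · exact Or.inl (Or.inl T_PLB2_1_1_1_1.closed)
      · rcases hw with rfl | rfl | rfl
        · exact Or.inl (Or.inl T_PLB2_1_m1_1_m1.closed)
        · exact Or.inl (Or.inl T_PLB2_1_m1_1_0.closed)
        · exact Or.inl (Or.inl T_PLB2_1_m1_1_1.closed)
    · rcases ht with rfl | rfl
      · rcases hw with rfl | rfl | rfl
        · exact Or.inl (Or.inl T_PLB2_1_1_m1_m1.closed)
        · exact Or.inl (Or.inl T_PLB2_1_1_m1_0.closed)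
        · exact Or.inl (Or.inl T_PLB2_1_1_m1_1.closed)
      · rcases hw with rfl | rfl | rfl
        · exact Or.inl (Or.inl T_PLB2_1_m1_m1_m1.closed)
        · exact Or.inl (Or.inl T_PLB2_1_m1_m1_0.closed)
        · exact Or.inl (Or.inl T_PLB2_1_m1_m1_1.closed)

theorem allC : AllC := ⟨taG, ta1, ta2, ta3, tb, tf, tp1, tp2⟩

theorem tq1 : TQ1 := tq1_of allC

theorem tq2 : TQ2 := tq2_of allC

theorem tqp : TQP := tqp_of allC

/-- everything with `q < p + l` -/
theorem stQ2 : StQ2 := stQ2_of_q tq1 tq2 tqp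

end Helper12.TQ
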