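import Pool.Agent.Helper12.TQ.TT2

set_option autoImplicit false
set_option linter.unusedSectionVars false
set_option linter.unusedVariables false

/-!
# The remaining statements for `q < p + l`
-/

namespace Helper12.TQ

open Helper11.N1 Helper55.KE Helper25.FLT Helper25.KW Helper12.TT

/-- `S1`, `q < p + l` -/
def TQ1 : Prop := ∀ (p a b c J ds l q E t : ℤ) (D dl : ℝ) (Cl : ℤ → ℤ → ℤ → ℤ → ℝ → Prop),
  World2 p a b c J ds l q E t D dl Cl → -a < c → ∀ (N X R : ℤ) (I m : ℝ),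
  KGF p a b ds D (P2 l p q) Cl N X R I → KMin p a b ds (P2 l p q) Cl N m → m < D →
  Cas a b ds R (X + ds * I) m → Aux p a b ds D Cl → NQ p q → TTQ p a b c l q ds t D Cl → False

/-- `S2`, `q < p + l` -/
def TQ2 : Prop := ∀ (p a b c J ds l q E t : ℤ) (D dl : ℝ) (Cl : ℤ → ℤ → ℤ → ℤ → ℝ → Prop),
  World2 p a b c J ds l q E t D dl Cl → -a < c → KS2G p a b ds D (P2 l p q) Cl →
  (∀ σ w : ℤ, (σ = 1 ∨ σ = -1) → ∃ (N X R : ℤ) (I : ℝ), KGF p a b ds D (P2 l p q) Cl N X R I ∧
    D < b + ds * (X + ds * I) ∧ D < a + ds * (X + ds * I + R) ∧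
    σ * (ds * D) < 2 * (σ * (X + ds * I + w * R)) ∧
    KExW p a b ds (P2 l p q) Cl N σ w (σ * (X + ds * I + w * R))) →
  (∃ (N X R : ℤ) (I : ℝ), KGF p a b ds D (P2 l p q) Cl N X R I ∧
    D < b + ds * (X + ds * I) ∧ D < a + ds * (X + ds * I + R) ∧
    ds * D < 2 * (X + ds * I) ∧
    KExtG10 p a b ds D (P2 l p q) Cl N (X + ds * I)) →
  Aux p a b ds D Cl → NQ p q → TTQ p a b c l q ds t D Cl → False

/-- `PL`, `q < p + l` -/
def TQP : Prop := ∀ (p a b c J ds l q E t : ℤ) (D dl : ℝ) (Cl : ℤ → ℤ → ℤ → ℤ → ℝ → Prop),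
  World2 p a b c J ds l q E t D dl Cl → -a < c → KEmp p a b ds (P2 l p q) Cl →
  (PLB p a b c ds D ∨ PLC p a b c ds t D) → Aux p a b ds D Cl → NQ p q →
  TTQ p a b c l q ds t D Cl → (E = 2 * J → J = 1) → False

section

variable {p q a b c : ℕ} [NeZero p] [NeZero q] {z : ZMod p → ZMod (p * q)} {i0 ρ : ZMod p}
  {θ : ZMod (p * q)} {δ l : ℕ} {k : ℤ} {s ds J : ℤ}

theorem ej (h : SG p q a b c z i0 ρ θ δ l k s ds J) (hJ0 : 1 ≤ J) : s = 2 * J → J = 1 := by
  intro hs
  obtain ⟨e, he, he'⟩ : ∃ e : ℤ, (e = 1 ∨ e = -1) ∧ l * s + e = J * q := by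
    refine ⟨ds * (1 - 2 * (c : ℤ)), ?_, h.hJ⟩
    rcases h.hds with h1 | h1 <;> rcases h.c01 with h2 | h2 <;> rw [h1, h2] <;> norm_num
  have h1 : J ∣ e := ⟨q - 2 * l, by rw [hs] at he'; linear_combination he'⟩
  rcases he with rfl | rfl
  · exact Int.eq_one_of_dvd_one (by omega) h1
  · rw [dvd_neg] at h1
    exact Int.eq_one_of_dvd_one (by omega) h1

end

theorem stQ2_of_q (H1 : TQ1) (H2 : TQ2) (H3 : TQP) : StQ2 := by
  intro p q a b c _ _ z i0 ρ θ δ l k hL h2a h2b hap hbp hρ hl2 hk0 hka hNE hq n x r hn0 hnp hnl hnq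
    hA hx hs
  obtain ⟨s, ds, J, h⟩ := sg_of hL hl2
  have hk := h.ka hka
  obtain ⟨t, ht1, ht⟩ := h.qrho hρ
  have W := h.world2 h2a h2b hl2 hk0 hka hq ht1 ht
  have hT := ttq h h2a h2b hk ht1 ht (ttf h W.toBase h2b hk0 hk)
  have hc : -(a : ℤ) < k := by rw [abs_lt] at hk; exact hk.1
  have hD0 : 0 < DD p q s := by
    have h1 : (1 : ℝ) ≤ J := by exact_mod_cast W.hJ
    have h2 := W.hJD
    have e1 : DD p q s = ((p * s : ℤ) / (q : ℝ) : ℝ) := rfl
    rw [e1]
    linarith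
  by_cases hne : ∃ N X R I, KH p q a b c ρ θ s ds (P2 l p q) N X R I
  · by_cases hS : S2G p q a b c ρ θ s ds (P2 l p q)
    · exact H2 p a b k J ds l q s t _ _ _ W hc (h.ks2G hS)
        (fun σ w hσ => h.s2x h2a h2b P2.refl hS hne hσ)
        (h.s2x10 h2a h2b P2.refl hS hne) (h.aux h2a h2b hap hbp) (h.nq h2b) hT
    · unfold S2G at hS
      push Not at hS
      obtain ⟨N, X, R, I, hK, hS⟩ := hS
      have hor : b + ds * (X + ds * I) < DD p q s ∨ a + ds * (X + ds * I + R) < DD p q s := by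
        -- equalities do not occur
        have key : ∀ (A r : ℤ), (A : ℝ) + ds * (X + ds * I + r) ≠ DD p q s := by
          intro A r he
          have hd2 : (ds : ℝ) * ds = 1 := by exact_mod_cast h.ds2
          have h5 : I - DD p q s = ((-(A + ds * (X + r)) : ℤ) : ℝ) := by
            push_cast
            linear_combination he - I * hd2
          have h6 := h.neq hK.cl h.ccp h5
          have hpq := hL.hpq
          have hN0 := hK.N0
          have hNp := hK.Np
          exact ndvd_small (q := q) (m := N - p) (by omega) (by omega) (by omega) h6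
        have k1 := key b 0
        have k2 := key a R
        push_cast at k1 k2
        rw [add_zero] at k1
        rcases lt_trichotomy ((b : ℝ) + ds * (X + ds * I)) (DD p q s) with h5 | h5 | h5
        · exact Or.inl h5
        · exact absurd h5 k1
        · right
          exact lt_of_le_of_ne (hS h5) k2
      obtain ⟨N', X', R', I', hK', m, g1, g2, g3⟩ := h.s1G h2a h2b (P := P2 l p q)
        ⟨N, X, R, I, hK, hor⟩
      exact H1 p a b k J ds l q s t _ _ _ W hc N' X' R' I' m hK' g1 g2 g3 (h.aux h2a h2b hap hbp)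
        (h.nq h2b) hT
  · refine H3 p a b k J ds l q s t _ _ _ W hc (h.emp hne) ?_ (h.aux h2a h2b hap hbp) (h.nq h2b) hT
      (ej h W.hJ)
    obtain ⟨X, I, hK, _⟩ := h.khAt (P := fun _ => True) hn0 hnp trivial hA hx hs
    by_cases h1 : n + l = p
    · left
      refine h.plb h2a h2b hk hD0 W.hD ⟨X, r, I, ?_, hK.bx⟩
      have e1 : ((p : ℤ) - l) = n := by omega
      rw [e1]
      exact hK.cl
    · by_cases h2 : n + q = p + l
      · right
        refine h.plb2 h2a h2b hk hD0 W.hD ht1 ht ⟨X, r, I, ?_, hK.bx⟩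
        have e1 : ((p : ℤ) + l - q) = n := by omega
        rw [e1]
        exact hK.cl
      · exfalso
        exact hne ⟨n, X, r, I, ⟨hK.cl, hK.N0, hK.Np, ⟨by exact_mod_cast hnl, by exact_mod_cast h1,
          by exact_mod_cast hnq, by exact_mod_cast h2⟩, hK.bx⟩⟩

/-- everything from the abstract statements -/
theorem stKN_of_q (h1 : StT1t) (h2 : StS2) (h3 : StTP) (h4 : TQ1) (h5 : TQ2)
    (h6 : TQP) : StKN :=
  stKN_of (stS1_of_t h1) h2 (stPL_of h3) (stQ2_of_q h4 h5 h6)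

end Helper12.TQ
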