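import Pool.Agent.Helper11.CT.Main2
import Pool.Agent.Helper55.Q2.Cls
import Pool.Agent.Helper12.TQ.Top4

set_option autoImplicit false
set_option linter.unusedSectionVars false
set_option linter.unusedVariables false
set_option linter.unusedSimpArgs false

/-!
# The classes with `q < p + l`: valuations, facts and `K` forms
-/

noncomputable section

namespace Helper12.TQ

open Helper25.KW Helper55.KE Helper11.CT Helper55.Q2

/-- what the forms of a class mean -/
structure FV (f : FQ) (x : List ℝ) (a b c p J E : ℤ) (D Z S I R : ℝ) : Prop where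
  o : ∃ y, x = 1 :: (a : ℝ) :: (b : ℝ) :: (c : ℝ) :: y
  P : evg x f.P = p
  D : evg x f.D = D
  J : evg x f.J = J
  E : evg x f.E = E
  I : evg x f.I = I
  Z : evg x f.Z = Z
  S : evg x f.S = S
  R : evg x f.R = R

theorem hn (ds : ℤ) : ((Int.neg ds : ℤ) : ℝ) = -(ds : ℝ) := by
  show ((-ds : ℤ) : ℝ) = _
  push_cast
  ring

section

variable {p a b c J ds l q E t : ℤ} {D dl : ℝ} {Cl : ℤ → ℤ → ℤ → ℤ → ℝ → Prop}

theorem FV.e2 {f : FQ} {x : List ℝ} {Z S I R : ℝ}
    (h : FV f x a b c p J E D Z S I R) (u v : ℤ) : evg x [u, v] = u + v * a := by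
  obtain ⟨y, rfl⟩ := h.o
  simp

theorem FV.e3 {f : FQ} {x : List ℝ} {Z S I R : ℝ}
    (h : FV f x a b c p J E D Z S I R) (u v w : ℤ) :
    evg x [u, v, w] = u + v * a + w * b := by
  obtain ⟨y, rfl⟩ := h.o
  simp
  ring

theorem FV.e4 {f : FQ} {x : List ℝ} {Z S I R : ℝ}
    (h : FV f x a b c p J E D Z S I R) (u v w y : ℤ) :
    evg x [u, v, w, y] = u + v * a + w * b + y * c := by
  obtain ⟨y, rfl⟩ := h.o
  simp
  ring

theorem FV.e1 {f : FQ} {x : List ℝ} {Z S I R : ℝ}
    (h : FV f x a b c p J E D Z S I R) (u : ℤ) : evg x [u] = u := by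
  obtain ⟨y, rfl⟩ := h.o
  simp

/-! ### soundness -/

theorem pmem_pos {x : List ℝ} {e : List ℤ} : ∀ {F : List (List ℤ)},
    (∀ f ∈ F, 0 < evg x f) → pmem e F = true → 0 < evg x e := by
  intro F
  induction F with
  | nil => intro _ h; exact absurd h (by simp [pmem])
  | cons f F ih =>
    intro hF h
    simp only [pmem, Bool.or_eq_true] at h
    rcases h with h | h
    · have h3 := hF f List.mem_cons_self
      rwa [leq_ev _ _ h x] at h3
    · exact ih (fun g hg => hF g (List.mem_cons_of_mem _ hg)) h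

theorem Closed.false {cs : Bool} {reg fb kq : ℕ} {wx ws : ℤ} {tok ej : ℕ}
    (hc : Closed cs ds t reg fb kq wx ws tok ej) {vi : List ℤ} {vr : List ℝ} {Nr : List ℤ} {Nk : ℤ}
    (hv : Val2 (mQ ds t reg fb kq wx ws tok) p a b c J ds l q E t D dl Cl vi vr Nr Nk)
    (W : World2 p a b c J ds l q E t D dl Cl)
    (hg : gl2 (mQ ds t reg fb kq wx ws tok) = true)
    (hK : ∀ kf ∈ (mQ ds t reg fb kq wx ws tok).K.kf, KOk2 p l q Cl ds (xv vi vr) Nk kf)
    (hF : ∀ e ∈ facQ cs ds t reg fb kq wx ws tok ej, 0 < evg (xv vi vr) e) : False := by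
  obtain ⟨T, B, h⟩ := hc
  unfold chkQ at h
  rw [Bool.and_eq_true, List.all_eq_true] at h
  refine hv.sound W hg hK T B ?_ h.2
  intro c hcB
  have h1 := h.1 c hcB
  rw [Bool.and_eq_true, Bool.or_eq_true] at h1
  have h2 := pmem_pos hF h1.1
  unfold hld
  split
  · rename_i h3
    rcases h1.2 with h4 | h4
    · rw [h3] at h4
      exact absurd h4 (by simp)
    · rw [hv.xI h4] at h2 ⊢
      exact_mod_cast h2
  · exact h2

/-! ### non divisibility -/

theorem nd_sh {p n : ℤ} (e : ℤ) (h0 : n + e * p ≠ 0) (h1 : -p < n + e * p) (h2 : n + e * p < p) :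
    ¬ p ∣ n := by
  intro h
  have h3 : p ∣ n + e * p := dvd_add h (Dvd.intro_left e rfl)
  rcases lt_or_gt_of_ne h0 with h4 | h4
  · have := Int.le_of_dvd (by omega) ((dvd_neg (a := p) (b := n + e * p)).2 h3)
    omega
  · have := Int.le_of_dvd h4 h3
    omega

/-- the known descriptors without `k` -/
def KN (p l q : ℤ) (kn : Bool) : Prop := kn = true → ¬ p ∣ q + l ∧ ¬ p ∣ 2 * q - l

theorem kn_ok (W : World2 p a b c J ds l q E t D dl Cl) (hq : NQ p q) {kn : Bool}
    (hkn : KN p l q kn) (Nr : List ℤ) : ∀ w ∈ knN kn, ¬ p ∣ evg (l :: q :: Nr) w := by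
  have hl := W.hl
  have hlp := W.hlp
  have hpq := W.hpq
  have hql := W.hq
  have h1 : ¬ p ∣ evg (l :: q :: Nr) [1] := by
    simp only [evg_cons, evg_nil, Int.cast_one, one_mul, add_zero]
    exact nd_sh 0 (by omega) (by omega) (by omega)
  have h2 : ¬ p ∣ evg (l :: q :: Nr) [-1, 1] := by
    simp only [evg_cons, evg_nil]
    push_cast
    exact nd_sh 0 (by omega) (by omega) (by omega)
  have h3 : ∀ j : ℤ, 1 ≤ j → j ≤ 4 → ¬ p ∣ evg (l :: q :: Nr) [0, j] := by
    intro j g1 g2
    simp only [evg_cons, evg_nil]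
    push_cast
    rw [zero_mul, zero_add, add_zero]
    exact hq j g1 g2
  intro w hw
  cases kn
  · simp only [knN, List.mem_cons, List.not_mem_nil, or_false] at hw
    rcases hw with rfl | rfl | rfl | rfl | rfl | rfl
    · exact h1
    · exact h2
    · exact h3 1 (by norm_num) (by norm_num)
    · exact h3 2 (by norm_num) (by norm_num)
    · exact h3 3 (by norm_num) (by norm_num)
    · exact h3 4 (by norm_num) (by norm_num)
  · simp only [knN, List.mem_cons, List.not_mem_nil, or_false] at hw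
    rcases hw with rfl | rfl | rfl | rfl | rfl | rfl | rfl | rfl
    · exact h1
    · exact h2
    · exact h3 1 (by norm_num) (by norm_num)
    · exact h3 2 (by norm_num) (by norm_num)
    · exact h3 3 (by norm_num) (by norm_num)
    · exact h3 4 (by norm_num) (by norm_num)
    · have := (hkn rfl).1
      simp only [evg_cons, evg_nil]
      push_cast
      rw [one_mul, one_mul, add_zero, add_comm]
      exact this
    · have := (hkn rfl).2
      simp only [evg_cons, evg_nil]
      push_cast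
      have e : -1 * l + (2 * q + 0) = 2 * q - l := by ring
      rw [e]
      exact this

/-! ### valuations -/

theorem val_G (W : World2 p a b c J ds l q E t D dl Cl) (hq : NQ p q) {N X R : ℤ} {I : ℝ}
    (hcl : Cl N 0 X R I) (k1 : 0 < N) (k2 : N < p) (hP : P2 l p q N) (h1 : N + p ≠ q)
    (h2 : N + q ≠ 2 * p) (kf : KF) :
    Val2 (cG ds t kf) p a b c J ds l q E t D dl Cl [1, a, b, c, p, J, E, X, R] [D, I] [N] N := by
  have hn : Int.neg ds = -ds := rfl
  have hl := W.hl
  have hlp := W.hlp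
  have hpq := W.hpq
  have hql := W.hq
  obtain ⟨p1, p2, p3, p4⟩ := hP
  refine Val2.mk (Val.mk W.toBase ⟨_, rfl⟩ rfl rfl ?_ rfl ?_ rfl ?_ rfl ?_ rfl ?_ rfl ?_ ?_ ?_)
    ?_ ?_ ⟨0, by simp [NN, cG]⟩
  · simp [cG]
  · simp [cG]
  · simp [cG]
  · simp [cG]
  · simp [cG]
  · simp [cG]
  · have g1 := W.cp
    have g2 := W.cl
    have g3 := W.cq
    have g4 := hcl
    have e1 : -b - ds * J = -b + -(ds * J) := by ring
    rw [e1] at g2
    have e3 : -ds * E = -(ds * E) := by ring
    rw [e3] at g3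
    simp only [cG, GOk, List.length_cons, List.length_nil, List.replicate_succ,
      List.replicate_zero, evg_cons, evg_nil, List.map_cons, List.map_nil,
      List.cons_append, List.nil_append, hn]
    refine ⟨⟨?_, ?_, ?_⟩, ⟨?_, ?_, ?_⟩, ⟨?_, ?_, ?_⟩, ⟨?_, ?_, ?_⟩, trivial⟩ <;>
      simp only [Int.cast_zero, Int.cast_one, zero_mul, one_mul, mul_one, zero_add, add_zero,
        Int.cast_neg, neg_mul, Int.cast_add, Int.cast_mul, Int.cast_id, add_comm c b] <;>
      first | exact g1 | (rw [add_comm c b] at g2; exact g2) | exact g3 | exact g4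
  · intro w hw
    have hw' : w ∈ knN false ∨ w ∈ ([[0, 0, 1], [1, 0, 1], [-1, 0, 1],
      [0, -1, 1], [1, -1, 1], [-1, 1, 1], [0, 1, 1]] : List (List ℤ)) := by
      simp only [cG, knN, List.mem_cons, List.not_mem_nil, or_false] at hw ⊢
      tauto
    rcases hw' with hw | hw
    · exact kn_ok W hq (fun hh => absurd hh (by simp)) [N] w hw
    · simp only [List.mem_cons, List.not_mem_nil, or_false] at hw
      rcases hw with rfl | rfl | rfl | rfl | rfl | rfl | rfl <;> simp only [evg_cons, evg_nil] <;>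
        push_cast
      · exact nd_sh 0 (by omega) (by omega) (by omega)
      · exact nd_sh (-1) (by omega) (by omega) (by omega)
      · exact nd_sh 0 (by omega) (by omega) (by omega)
      · exact nd_sh 1 (by omega) (by omega) (by omega)
      · exact nd_sh 0 (by omega) (by omega) (by omega)
      · exact nd_sh (-1) (by omega) (by omega) (by omega)
      · exact nd_sh (-2) (by omega) (by omega) (by omega)
  · simp [cG, xv]
  · simp [cG, xv]

theorem val_N (W : World2 p a b c J ds l q E t D dl Cl) (hq : NQ p q) {kd : List ℤ} {Nk : ℤ}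
    {kn : Bool} (hkn : KN p l q kn)
    (hkd : ∀ Nr : List ℤ, ∃ j : ℤ, NN p l (q :: Nr) kd = Nk + j * p) (kf : KF) :
    Val2 (cN ds t kd kn kf) p a b c J ds l q E t D dl Cl [1, a, b, c, p, J, E] [D] [] Nk := by
  have hn : Int.neg ds = -ds := rfl
  refine Val2.mk (Val.mk W.toBase ⟨_, rfl⟩ rfl rfl ?_ rfl ?_ rfl ?_ rfl ?_ rfl ?_ rfl ?_ ?_ ?_)
    ?_ ?_ (hkd [])
  · simp [cN]
  · simp [cN]
  · simp [cN]
  · simp [cN]
  · simp [cN]
  · simp [cN]
  · have g1 := W.cp
    have g2 := W.cl
    have g3 := W.cq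
    have e1 : -b - ds * J = -b + -(ds * J) := by ring
    rw [e1] at g2
    have e3 : -ds * E = -(ds * E) := by ring
    rw [e3] at g3
    simp only [cN, GOk, List.length_cons, List.length_nil, List.replicate_succ,
      List.replicate_zero, evg_cons, evg_nil, List.map_cons, List.map_nil,
      List.cons_append, List.nil_append, hn]
    refine ⟨⟨?_, ?_, ?_⟩, ⟨?_, ?_, ?_⟩, ⟨?_, ?_, ?_⟩, trivial⟩ <;>
      simp only [Int.cast_zero, Int.cast_one, zero_mul, one_mul, mul_one, zero_add, add_zero,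
        Int.cast_neg, neg_mul, Int.cast_add, Int.cast_mul, Int.cast_id, add_comm c b] <;>
      first | exact g1 | (rw [add_comm c b] at g2; exact g2) | exact g3
  · exact kn_ok W hq hkn []
  · simp [cN, xv]
  · simp [cN, xv]

theorem val_U (W : World2 p a b c J ds l q E t D dl Cl) (hq : NQ p q) {kd : List ℤ} {Nk : ℤ}
    {kn : Bool} (hkn : KN p l q kn)
    (hkd : ∀ Nr : List ℤ, ∃ j : ℤ, NN p l (q :: Nr) kd = Nk + j * p) (kf : KF)
    {N R : ℤ} {I : ℝ} (hu : UFac p b D Cl N R I) :
    Val2 (cU ds t kd kn kf) p a b c J ds l q E t D dl Cl [1, a, b, c, p, J, E, R] [D, I] [N]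
      Nk := by
  have hn : Int.neg ds = -ds := rfl
  refine Val2.mk (Val.mk W.toBase ⟨_, rfl⟩ rfl rfl ?_ rfl ?_ rfl ?_ rfl ?_ rfl ?_ rfl ?_ ?_ ?_)
    ?_ ?_ (hkd [N])
  · simp [cU]
  · simp [cU]
  · simp [cU]
  · simp [cU]
  · simp [cU]
  · simp [cU]
  · have g1 := W.cp
    have g2 := W.cl
    have g3 := W.cq
    have g4 := hu.cl
    have e1 : -b - ds * J = -b + -(ds * J) := by ring
    rw [e1] at g2
    have e3 : -ds * E = -(ds * E) := by ring
    rw [e3] at g3
    simp only [cU, GOk, List.length_cons, List.length_nil, List.replicate_succ,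
      List.replicate_zero, evg_cons, evg_nil, List.map_cons, List.map_nil,
      List.cons_append, List.nil_append, hn]
    refine ⟨⟨?_, ?_, ?_⟩, ⟨?_, ?_, ?_⟩, ⟨?_, ?_, ?_⟩, ⟨?_, ?_, ?_⟩, trivial⟩ <;>
      simp only [Int.cast_zero, Int.cast_one, zero_mul, one_mul, mul_one, zero_add, add_zero,
        Int.cast_neg, neg_mul, Int.cast_add, Int.cast_mul, Int.cast_id, add_comm c b] <;>
      first | exact g1 | (rw [add_comm c b] at g2; exact g2) | exact g3 | exact g4
  · intro w hw
    simp only [cU, List.mem_cons] at hw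
    rcases hw with rfl | hw
    · have u1 := hu.N0
      have u2 := hu.Np
      simp only [evg_cons, evg_nil]
      push_cast
      exact nd_sh 0 (by omega) (by omega) (by omega)
    · exact kn_ok W hq hkn [N] w hw
  · simp [cU, xv]
  · simp [cU, xv]

theorem val_V (W : World2 p a b c J ds l q E t D dl Cl) (hq : NQ p q) {kd : List ℤ} {Nk : ℤ}
    {kn : Bool} (hkn : KN p l q kn)
    (hkd : ∀ Nr : List ℤ, ∃ j : ℤ, NN p l (q :: Nr) kd = Nk + j * p) (kf : KF)
    {N R : ℤ} {I : ℝ} (hu : VFac p D Cl N R I) :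
    Val2 (cV ds t kd kn kf) p a b c J ds l q E t D dl Cl [1, a, b, c, p, J, E, R] [D, I] [N]
      Nk := by
  have hn : Int.neg ds = -ds := rfl
  refine Val2.mk (Val.mk W.toBase ⟨_, rfl⟩ rfl rfl ?_ rfl ?_ rfl ?_ rfl ?_ rfl ?_ rfl ?_ ?_ ?_)
    ?_ ?_ (hkd [N])
  · simp [cV]
  · simp [cV]
  · simp [cV]
  · simp [cV]
  · simp [cV]
  · simp [cV]
  · have g1 := W.cp
    have g2 := W.cl
    have g3 := W.cq
    have g4 := hu.cl
    have e1 : -b - ds * J = -b + -(ds * J) := by ring
    rw [e1] at g2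
    have e3 : -ds * E = -(ds * E) := by ring
    rw [e3] at g3
    simp only [cV, GOk, List.length_cons, List.length_nil, List.replicate_succ,
      List.replicate_zero, evg_cons, evg_nil, List.map_cons, List.map_nil,
      List.cons_append, List.nil_append, hn]
    refine ⟨⟨?_, ?_, ?_⟩, ⟨?_, ?_, ?_⟩, ⟨?_, ?_, ?_⟩, ⟨?_, ?_, ?_⟩, trivial⟩ <;>
      simp only [Int.cast_zero, Int.cast_one, zero_mul, one_mul, mul_one, zero_add, add_zero,
        Int.cast_neg, neg_mul, Int.cast_add, Int.cast_mul, Int.cast_id, add_comm c b] <;>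
      first | exact g1 | (rw [add_comm c b] at g2; exact g2) | exact g3 | exact g4
  · intro w hw
    have u1 := hu.N0
    have u2 := hu.Np
    simp only [cV, List.mem_cons] at hw
    rcases hw with rfl | rfl | hw
    · simp only [evg_cons, evg_nil]
      push_cast
      exact nd_sh 0 (by omega) (by omega) (by omega)
    · simp only [evg_cons, evg_nil]
      push_cast
      exact nd_sh 0 (by omega) (by omega) (by omega)
    · exact kn_ok W hq hkn [N] w hw
  · simp [cV, xv]
  · simp [cV, xv]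

theorem val_W (W : World2 p a b c J ds l q E t D dl Cl) (hq : NQ p q) {kd : List ℤ} {Nk : ℤ}
    {kn : Bool} (hkn : KN p l q kn)
    (hkd : ∀ Nr : List ℤ, ∃ j : ℤ, NN p l (q :: Nr) kd = Nk + j * p) (kf : KF)
    {N R : ℤ} {I : ℝ} (hu : WFac p D Cl N R I) :
    Val2 (cW ds t kd kn kf) p a b c J ds l q E t D dl Cl [1, a, b, c, J, E, R] [I] [N]
      Nk := by
  have hn : Int.neg ds = -ds := rfl
  have u1 := hu.N0
  have u2 := hu.Np
  have u3 := hu.ID
  have u4 := hu.R2
  refine Val2.mk (Val.mk W.toBase ⟨_, rfl⟩ rfl rfl ?_ rfl ?_ rfl ?_ rfl ?_ rfl ?_ rfl ?_ ?_ ?_)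
    ?_ ?_ (hkd [N])
  · simp [cW]; omega
  · simp [cW]
  · simp [cW]
  · simp [cW]
  · simp [cW]
  · simp [cW]; linarith
  · have g1 := W.cp
    have g2 := W.cl
    have g3 := W.cq
    have g4 := hu.cl
    have e1 : -b - ds * J = -b + -(ds * J) := by ring
    rw [e1] at g2
    have e3 : -ds * E = -(ds * E) := by ring
    rw [e3] at g3
    have e2 : ((2 : ℤ) : ℝ) * I = D := by push_cast; linarith
    simp only [cW, GOk, List.length_cons, List.length_nil, List.replicate_succ,
      List.replicate_zero, evg_cons, evg_nil, List.map_cons, List.map_nil,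
      List.cons_append, List.nil_append, hn]
    refine ⟨⟨?_, ?_, ?_⟩, ⟨?_, ?_, ?_⟩, ⟨?_, ?_, ?_⟩, ⟨?_, ?_, ?_⟩, trivial⟩ <;>
      simp only [Int.cast_zero, Int.cast_one, zero_mul, one_mul, mul_one, zero_add, add_zero,
        Int.cast_neg, neg_mul, Int.cast_add, Int.cast_mul, Int.cast_id, add_comm c b, e2] <;>
      first | exact g1 | (rw [add_comm c b] at g2; exact g2) | exact g3 | exact g4
  · intro w hw
    simp only [cW, List.mem_cons] at hw
    rcases hw with rfl | hw
    · simp only [evg_cons, evg_nil]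
      push_cast
      exact nd_sh 0 (by omega) (by omega) (by omega)
    · exact kn_ok W hq hkn [N] w hw
  · simp [cW, xv]
  · simp [cW, xv]

end

end Helper12.TQ
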