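import Pool.Agent.Helper12.TQ.F

set_option autoImplicit false
set_option linter.unusedSectionVars false
set_option linter.unusedVariables false
set_option linter.unusedSimpArgs false

/-!
# The classes with `q < p + l`: `K` forms, closed classes
-/

noncomputable section

namespace Helper12.TQ

open Helper25.KW Helper55.KE Helper11.CT Helper55.Q2

/-- the fact behind the `K` forms -/
def KFact (reg fb : ℕ) (p a b l q ds : ℤ) (D Z S : ℝ) (Nk : ℤ)
    (Cl : ℤ → ℤ → ℤ → ℤ → ℝ → Prop) : Prop := match reg with
  | 0 => True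
  | 1 => True
  | 3 => KMin p a b ds (P2 l p q) Cl Nk (a + ds * S)
  | 5 => KS2G p a b ds D (P2 l p q) Cl ∧ D < 2 * b ∧ D < 2 * a ∧
    (match fb with
      | 0 => KExW p a b ds (P2 l p q) Cl Nk 1 1 S
      | _ => KExtG10 p a b ds D (P2 l p q) Cl Nk Z)
  | 6 => KEmp p a b ds (P2 l p q) Cl
  | _ => KMin p a b ds (P2 l p q) Cl Nk (b + ds * Z)

section

variable {p a b c J ds l q E t : ℤ} {D dl : ℝ} {Cl : ℤ → ℤ → ℤ → ℤ → ℝ → Prop}

theorem kok_min {x : List ℝ} {Nk : ℤ} {m : ℝ} (hK : KMin p a b ds (P2 l p q) Cl Nk m)
    {u v : ℤ} {e : List ℤ} (eA : evg x [0, 1] = a) (eB : evg x [0, 0, 1] = b)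
    (hm : ∀ z s : ℝ, 0 < u * z + v * s + evg x e → b + ds * z < m ∨ a + ds * s < m) :
    KOk2 p l q Cl ds x Nk (1, (u, v, e) :: kbx) := by
  intro N' τ' X' R' I' hC ht h1 h2 h3 h4 h5 h6 h7 hg
  simp only [kbx, List.forall_mem_cons, List.not_mem_nil, false_imp_iff, implies_true, and_true,
    eA, eB] at hg
  push_cast at hg
  obtain ⟨g1, g2, g3, g4, g5⟩ := hg
  have key := hK hC ht h1 h2 ⟨h3, h4, h5, h6⟩ (h7.imp_right (fun hh => hh.1 le_rfl))
    ⟨by linarith, by linarith, by linarith, by linarith⟩
  rcases hm _ _ g1 with h8 | h8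
  · linarith [key.1]
  · linarith [key.2]

theorem kok_Q (hds : ds = 1 ∨ ds = -1) {f : FQ} {x : List ℝ} {Z S I R : ℝ}
    (hf : FV f x a b c p J E D Z S I R) (hS1 : -(a : ℝ) < S) {reg fb : ℕ} {Nk : ℤ}
    (hK : KFact reg fb p a b l q ds D Z S Nk Cl) :
    ∀ kf ∈ kfQ ds f reg fb, KOk2 p l q Cl ds x Nk kf := by
  have hn := hn ds
  have eA : evg x [0, 1] = a := by rw [hf.e2]; push_cast; ring
  have eB : evg x [0, 0, 1] = b := by rw [hf.e3]; push_cast; ring
  have eAB : evg x [0, 1, -1] = a - b := by rw [hf.e3]; push_cast; ring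
  have eBA : evg x [0, -1, 1] = b - a := by rw [hf.e3]; push_cast; ring
  have eD := hf.D
  have eZ := hf.Z
  have eS := hf.S
  have hd2 : (ds : ℝ) * ds = 1 := by rcases hds with rfl | rfl <;> norm_num
  -- V and C
  have hV : KMin p a b ds (P2 l p q) Cl Nk (b + ds * Z) →
      ∀ kf ∈ ([(1, (Int.neg ds, 0, axpy ds f.Z []) :: kbx),
        (1, (0, Int.neg ds, axpy ds f.Z [0, -1, 1]) :: kbx)] : KF), KOk2 p l q Cl ds x Nk kf := by
    intro hM kf hkf
    simp only [List.mem_cons, List.not_mem_nil, or_false] at hkf
    rcases hkf with rfl | rfl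
    · refine kok_min hM eA eB ?_
      intro z s h
      rw [evg_axpy, eZ, evg_nil, hn] at h
      push_cast at h
      left
      linarith
    · refine kok_min hM eA eB ?_
      intro z s h
      rw [evg_axpy, eZ, eBA, hn] at h
      push_cast at h
      right
      linarith
  intro kf hkf
  rcases reg with _ | _ | _ | _ | _ | _ | _ | reg
  · exact absurd hkf (by simp [kfQ])
  · exact absurd hkf (by simp [kfQ])
  · exact hV hK kf hkf
  · simp only [kfQ, List.mem_cons, List.not_mem_nil, or_false] at hkf
    have hM : KMin p a b ds (P2 l p q) Cl Nk (a + ds * S) := hK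
    rcases hkf with rfl | rfl
    · refine @kok_min p a b ds l q Cl x Nk (a + ds * S) hM 0 (Int.neg ds) _ eA eB ?_
      intro z s h
      rw [evg_axpy, eS, evg_nil, hn] at h
      push_cast at h
      right
      linarith
    · refine @kok_min p a b ds l q Cl x Nk (a + ds * S) hM (Int.neg ds) 0 _ eA eB ?_
      intro z s h
      rw [evg_axpy, eS, eAB, hn] at h
      push_cast at h
      left
      linarith
  · exact hV hK kf hkf
  · obtain ⟨hS, hD2b, hD2a, hX⟩ := hK
    simp only [kfQ, List.mem_cons, List.not_mem_nil, or_false] at hkf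
    rcases hkf with rfl | rfl | rfl
    · intro N' τ' X' R' I' hC ht h1 h2 h3 h4 h5 h6 h7 hg
      simp only [List.forall_mem_cons, List.not_mem_nil, false_imp_iff, implies_true, and_true,
        evg_axpy, eA, eB, eD, hn] at hg
      push_cast at hg
      obtain ⟨g1, g2, g3, g4⟩ := hg
      rcases hds with rfl | rfl
      · push_cast at *
        have := (hS hC ht h1 h2 ⟨h3, h4, h5, h6⟩
          ⟨by push_cast; linarith, by push_cast; linarith, by push_cast; linarith,
            by push_cast; linarith⟩).1
        push_cast at this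
        linarith
      · push_cast at *
        have := (hS hC ht h1 h2 ⟨h3, h4, h5, h6⟩
          ⟨by push_cast; linarith, by push_cast; linarith, by push_cast; linarith,
            by push_cast; linarith⟩).1
        push_cast at this
        linarith
    · intro N' τ' X' R' I' hC ht h1 h2 h3 h4 h5 h6 h7 hg
      simp only [List.forall_mem_cons, List.not_mem_nil, false_imp_iff, implies_true, and_true,
        evg_axpy, eA, eB, eD, hn] at hg
      push_cast at hg
      obtain ⟨g1, g2, g3, g4⟩ := hg
      rcases hds with rfl | rfl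
      · push_cast at *
        have := (hS hC ht h1 h2 ⟨h3, h4, h5, h6⟩
          ⟨by push_cast; linarith, by push_cast; linarith, by push_cast; linarith,
            by push_cast; linarith⟩).2
        push_cast at this
        linarith
      · push_cast at *
        have := (hS hC ht h1 h2 ⟨h3, h4, h5, h6⟩
          ⟨by push_cast; linarith, by push_cast; linarith, by push_cast; linarith,
            by push_cast; linarith⟩).2
        push_cast at this
        linarith
    · rcases fb with _ | fb
      · intro N' τ' X' R' I' hC ht h1 h2 h3 h4 h5 h6 h7 hg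
        simp only [List.forall_mem_cons, List.not_mem_nil, false_imp_iff, implies_true, and_true,
          evg_axpy, eA, eB, eS, evg_nil] at hg
        push_cast at hg
        obtain ⟨g1, g2, g3, g4⟩ := hg
        simp only at hX
        -- `S > -a` is needed
        have key := hX hC ht h1 h2 ⟨h3, h4, h5, h6⟩ (h7.imp_right (fun hh => hh.1 le_rfl))
        have := key ⟨by linarith, by linarith, by linarith, by linarith⟩
        push_cast at this
        linarith
      · intro N' τ' X' R' I' hC ht h1 h2 h3 h4 h5 h6 h7 hg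
        simp only [List.forall_mem_cons, List.not_mem_nil, false_imp_iff, implies_true, and_true,
          evg_axpy, eA, eB, eD, eZ, hn] at hg
        push_cast at hg
        obtain ⟨g1, g2, g3, g4, g5, g6⟩ := hg
        exact hX hC ht h1 h2 ⟨h3, h4, h5, h6⟩
          (h7.imp_right (fun hh => ⟨hh.1 (by norm_num), hh.2 le_rfl⟩))
          ⟨by linarith, by linarith, by linarith, by linarith⟩ (by linarith) (by linarith)
  · simp only [kfQ, List.mem_cons, List.not_mem_nil, or_false] at hkf
    subst hkf
    have hE : KEmp p a b ds (P2 l p q) Cl := hK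
    intro N' τ' X' R' I' hC ht h1 h2 h3 h4 h5 h6 h7 hg
    simp only [List.forall_mem_cons, List.not_mem_nil, false_imp_iff, implies_true, and_true,
      eA, eB] at hg
    push_cast at hg
    obtain ⟨g1, g2, g3, g4⟩ := hg
    exact hE hC ht h1 h2 ⟨h3, h4, h5, h6⟩ ⟨by linarith, by linarith, by linarith, by linarith⟩
  · exact hV hK kf hkf

end

end Helper12.TQ
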