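import Pool.Agent.Helper12.TQ.Kf

set_option autoImplicit false
set_option linter.unusedSectionVars false
set_option linter.unusedVariables false
set_option linter.unusedSimpArgs false

/-!
# The classes with `q < p + l`: closed classes
-/

noncomputable section

namespace Helper12.TQ

open Helper25.KW Helper55.KE Helper11.CT Helper55.Q2

/-- closed with or without an auxiliary cluster -/
def ClosedT (cs : Bool) (ds t : ℤ) (reg fb kq : ℕ) (wx ws : ℤ) (ej : ℕ) : Prop :=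
  Closed cs ds t reg fb kq wx ws 0 ej ∨ (Closed cs ds t reg fb kq wx ws 1 ej ∧
    Closed cs ds t reg fb kq wx ws 2 ej ∧ Closed cs ds t reg fb kq wx ws 3 ej)

section

variable {p a b c J ds l q E t : ℤ} {D dl : ℝ} {Cl : ℤ → ℤ → ℤ → ℤ → ℝ → Prop}

theorem dsc (W : World2 p a b c J ds l q E t D dl Cl) : ds = 1 ∨ ds = -1 := by
  rcases W.hds with ⟨h, _⟩ | ⟨h, _⟩ <;> simp [h]

theorem Sid.ej {cs : Bool} {reg fb ej ej' : ℕ} {Z S I R : ℝ}
    (h : Sid cs reg fb ej a b c ds J E D Z S I R)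
    (h' : match ej' with
      | 0 => True
      | 1 => 2 * J < E
      | 2 => E < 2 * J
      | _ => J = 1 ∧ E = 2) : Sid cs reg fb ej' a b c ds J E D Z S I R :=
  ⟨h.hcs, h.hfb, h.I0, h.ID, h.Z1, h.Z2, h.S1, h.S2, h.hreg, h'⟩

/-- generic `k` -/
theorem killG (W : World2 p a b c J ds l q E t D dl Cl) (hc : -a < c) (hq : NQ p q)
    {N X R : ℤ} {I : ℝ} (hcl : Cl N 0 X R I) (k1 : 0 < N) (k2 : N < p) (hP : P2 l p q N)
    (h1 : N + p ≠ q) (h2 : N + q ≠ 2 * p) {cs : Bool} {reg fb : ℕ}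
    (hC : Closed cs ds t reg fb 0 0 0 0 0)
    (hs : Sid cs reg fb 0 a b c ds J E D (X + ds * I) (X + ds * I + R) I R)
    (hK : KFact reg fb p a b l q ds D (X + ds * I) (X + ds * I + R) N Cl) : False := by
  have hf : FV (fQ ds t 0 0 0 0) (xv [1, a, b, c, p, J, E, X, R] [D, I]) a b c p J E D
      (X + ds * I) (X + ds * I + R) I R := fv_G 0
  refine Closed.false hC (val_G W hq hcl k1 k2 hP h1 h2 _) W (gl2_m0 (dsc W) W.ht _ _ _) ?_
    (facs W hc hf hs (fun e he => absurd he (by simp [ftok])))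
  exact kok_Q (dsc W) hf hs.S1 hK

/-- the cluster `k` is a combination of `p`, `l`, `q`, no auxiliary cluster -/
theorem killN (W : World2 p a b c J ds l q E t D dl Cl) (hc : -a < c) (hq : NQ p q)
    {kq : ℕ} (hkq : kq ≠ 0) (hkn : KN p l q (knq kq)) {Nk : ℤ}
    (hkd : ∀ Nr : List ℤ, ∃ j : ℤ, NN p l (q :: Nr) (kdm kq) = Nk + j * p)
    {cs : Bool} {reg fb ej : ℕ} {wx ws : ℤ}
    (hC : Closed cs ds t reg fb kq wx ws 0 ej)
    (hs : Sid cs reg fb ej a b c ds J E D (kZ kq b ds D + wx * p)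
      (kZ kq b ds D + kR kq a b c t + ws * p) (kI kq D J E) (kR kq a b c t + (ws - wx) * p))
    (hK : KFact reg fb p a b l q ds D (kZ kq b ds D + wx * p)
      (kZ kq b ds D + kR kq a b c t + ws * p) Nk Cl) : False := by
  have hf := fv_N (a := a) (b := b) (c := c) (p := p) (J := J) (E := E) (D := D) (t := t)
    (ds := ds) hkq wx ws
  refine Closed.false (Nk := Nk) (vi := [1, a, b, c, p, J, E]) (vr := [D]) (Nr := []) hC ?_ W
    (gl2_m0 (dsc W) W.ht _ _ _) ?_ (facs W hc hf hs (fun e he => absurd he (by simp [ftok])))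
  · obtain ⟨k, rfl⟩ := Nat.exists_eq_succ_of_ne_zero hkq
    exact val_N W hq hkn hkd _
  · obtain ⟨k, rfl⟩ := Nat.exists_eq_succ_of_ne_zero hkq
    exact kok_Q (dsc W) hf hs.S1 hK

theorem killU (W : World2 p a b c J ds l q E t D dl Cl) (hc : -a < c) (hq : NQ p q)
    {kq : ℕ} (hkq : kq ≠ 0) (hkn : KN p l q (knq kq)) {Nk : ℤ}
    (hkd : ∀ Nr : List ℤ, ∃ j : ℤ, NN p l (q :: Nr) (kdm kq) = Nk + j * p)
    {cs : Bool} {reg fb ej : ℕ} {wx ws : ℤ}
    (hC : Closed cs ds t reg fb kq wx ws 1 ej)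
    (hs : Sid cs reg fb ej a b c ds J E D (kZ kq b ds D + wx * p)
      (kZ kq b ds D + kR kq a b c t + ws * p) (kI kq D J E) (kR kq a b c t + (ws - wx) * p))
    (hK : KFact reg fb p a b l q ds D (kZ kq b ds D + wx * p)
      (kZ kq b ds D + kR kq a b c t + ws * p) Nk Cl) {N R : ℤ} {I : ℝ}
    (hu : UFac p b D Cl N R I) : False := by
  have hf := fv_U (a := a) (b := b) (c := c) (p := p) (J := J) (E := E) (D := D) (t := t)
    (ds := ds) hkq wx ws (R := R) (I := I)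
  refine Closed.false (Nk := Nk) (vi := [1, a, b, c, p, J, E, R]) (vr := [D, I]) (Nr := [N]) hC
    ?_ W (gl2_m0 (dsc W) W.ht _ _ _) ?_ (facs W hc hf hs ?_)
  · obtain ⟨k, rfl⟩ := Nat.exists_eq_succ_of_ne_zero hkq
    exact val_U W hq hkn hkd _ hu
  · obtain ⟨k, rfl⟩ := Nat.exists_eq_succ_of_ne_zero hkq
    exact kok_Q (dsc W) hf hs.S1 hK
  · have u1 := hu.I0
    have u2 := hu.ID
    have u3 : -(p : ℝ) < 2 * R := by exact_mod_cast hu.R1
    have u4 : 2 * (R : ℝ) < p := by exact_mod_cast hu.R2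
    intro e he
    simp only [ftok, List.mem_cons, List.not_mem_nil, or_false] at he
    rcases he with rfl | rfl | rfl | rfl <;>
      simp only [xv, List.map_cons, List.map_nil, List.cons_append, List.nil_append, evg_cons,
        evg_nil] <;> push_cast <;> linarith

theorem killV (W : World2 p a b c J ds l q E t D dl Cl) (hc : -a < c) (hq : NQ p q)
    {kq : ℕ} (hkq : kq ≠ 0) (hkn : KN p l q (knq kq)) {Nk : ℤ}
    (hkd : ∀ Nr : List ℤ, ∃ j : ℤ, NN p l (q :: Nr) (kdm kq) = Nk + j * p)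
    {cs : Bool} {reg fb ej : ℕ} {wx ws : ℤ}
    (hC : Closed cs ds t reg fb kq wx ws 2 ej)
    (hs : Sid cs reg fb ej a b c ds J E D (kZ kq b ds D + wx * p)
      (kZ kq b ds D + kR kq a b c t + ws * p) (kI kq D J E) (kR kq a b c t + (ws - wx) * p))
    (hK : KFact reg fb p a b l q ds D (kZ kq b ds D + wx * p)
      (kZ kq b ds D + kR kq a b c t + ws * p) Nk Cl) {N R : ℤ} {I : ℝ}
    (hu : VFac p D Cl N R I) : False := by
  have hf := fv_V (a := a) (b := b) (c := c) (p := p) (J := J) (E := E) (D := D) (t := t)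
    (ds := ds) hkq wx ws (R := R) (I := I)
  refine Closed.false (Nk := Nk) (vi := [1, a, b, c, p, J, E, R]) (vr := [D, I]) (Nr := [N]) hC
    ?_ W (gl2_m0 (dsc W) W.ht _ _ _) ?_ (facs W hc hf hs ?_)
  · obtain ⟨k, rfl⟩ := Nat.exists_eq_succ_of_ne_zero hkq
    exact val_V W hq hkn hkd _ hu
  · obtain ⟨k, rfl⟩ := Nat.exists_eq_succ_of_ne_zero hkq
    exact kok_Q (dsc W) hf hs.S1 hK
  · have u1 := hu.I0
    have u2 := hu.ID
    have u3 : -(p : ℝ) < 2 * R := by exact_mod_cast hu.R1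
    have u4 : 2 * (R : ℝ) < p := by exact_mod_cast hu.R2
    intro e he
    simp only [ftok, List.mem_cons, List.not_mem_nil, or_false] at he
    rcases he with rfl | rfl | rfl | rfl <;>
      simp only [xv, List.map_cons, List.map_nil, List.cons_append, List.nil_append, evg_cons,
        evg_nil] <;> push_cast <;> linarith

theorem killW (W : World2 p a b c J ds l q E t D dl Cl) (hc : -a < c) (hq : NQ p q)
    {kq : ℕ} (hkq : kq ≠ 0) (hkn : KN p l q (knq kq)) {Nk : ℤ}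
    (hkd : ∀ Nr : List ℤ, ∃ j : ℤ, NN p l (q :: Nr) (kdm kq) = Nk + j * p)
    {cs : Bool} {reg fb ej : ℕ} {wx ws : ℤ}
    (hC : Closed cs ds t reg fb kq wx ws 3 ej)
    (hs : Sid cs reg fb ej a b c ds J E D (kZ kq b ds D + wx * p)
      (kZ kq b ds D + kR kq a b c t + ws * p) (kI kq D J E) (kR kq a b c t + (ws - wx) * p))
    (hK : KFact reg fb p a b l q ds D (kZ kq b ds D + wx * p)
      (kZ kq b ds D + kR kq a b c t + ws * p) Nk Cl) {N R : ℤ} {I : ℝ}
    (hu : WFac p D Cl N R I) : False := by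
  have hf := fv_W (a := a) (b := b) (c := c) (p := p) (J := J) (E := E) (D := D) (t := t)
    (ds := ds) hkq wx ws (R := R) (I := I) hu.R2 hu.ID
  refine Closed.false (Nk := Nk) (vi := [1, a, b, c, J, E, R]) (vr := [I]) (Nr := [N]) hC
    ?_ W (gl2_m0 (dsc W) W.ht _ _ _) ?_ (facs W hc hf hs ?_)
  · obtain ⟨k, rfl⟩ := Nat.exists_eq_succ_of_ne_zero hkq
    exact val_W W hq hkn hkd _ hu
  · obtain ⟨k, rfl⟩ := Nat.exists_eq_succ_of_ne_zero hkq
    exact kok_Q (dsc W) hf hs.S1 hK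
  · have u1 := hu.I0
    intro e he
    simp only [ftok, List.mem_cons, List.not_mem_nil, or_false] at he
    subst he
    simp only [xv, List.map_cons, List.map_nil, List.cons_append, List.nil_append, evg_cons,
        evg_nil]
    push_cast
    linarith

theorem killT (W : World2 p a b c J ds l q E t D dl Cl) (hc : -a < c) (hq : NQ p q)
    {kq : ℕ} (hkq : kq ≠ 0) (hkn : KN p l q (knq kq)) {Nk : ℤ}
    (hkd : ∀ Nr : List ℤ, ∃ j : ℤ, NN p l (q :: Nr) (kdm kq) = Nk + j * p)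
    {cs : Bool} {reg fb ej : ℕ} {wx ws : ℤ}
    (hC : ClosedT cs ds t reg fb kq wx ws ej)
    (hs : Sid cs reg fb ej a b c ds J E D (kZ kq b ds D + wx * p)
      (kZ kq b ds D + kR kq a b c t + ws * p) (kI kq D J E) (kR kq a b c t + (ws - wx) * p))
    (hK : KFact reg fb p a b l q ds D (kZ kq b ds D + wx * p)
      (kZ kq b ds D + kR kq a b c t + ws * p) Nk Cl) (hA : Aux p a b ds D Cl) : False := by
  rcases hC with hC | ⟨h1, h2, h3⟩
  · exact killN W hc hq hkq hkn hkd hC hs hK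
  · rcases hA.uvw with ⟨N, R, I, hu⟩ | ⟨N, R, I, hu⟩ | ⟨⟨N, R, I, hu⟩, _⟩
    · exact killU W hc hq hkq hkn hkd h1 hs hK hu
    · exact killV W hc hq hkq hkn hkd h2 hs hK hu
    · exact killW W hc hq hkq hkn hkd h3 hs hK hu

/-- the classes with `E = 2 J` separated -/
def ClosedE (cs : Bool) (ds t : ℤ) (reg fb kq : ℕ) (wx ws : ℤ) : Prop :=
  Closed cs ds t reg fb kq wx ws 3 0 ∧ Closed cs ds t reg fb kq wx ws 1 1 ∧
    Closed cs ds t reg fb kq wx ws 1 2 ∧ Closed cs ds t reg fb kq wx ws 2 1 ∧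
    Closed cs ds t reg fb kq wx ws 2 2 ∧ Closed cs ds t reg fb kq wx ws 0 3

theorem killE (W : World2 p a b c J ds l q E t D dl Cl) (hc : -a < c) (hq : NQ p q)
    (hEJ : E = 2 * J → J = 1)
    {kq : ℕ} (hkq : kq ≠ 0) (hkn : KN p l q (knq kq)) {Nk : ℤ}
    (hkd : ∀ Nr : List ℤ, ∃ j : ℤ, NN p l (q :: Nr) (kdm kq) = Nk + j * p)
    {cs : Bool} {reg fb : ℕ} {wx ws : ℤ}
    (hC : ClosedE cs ds t reg fb kq wx ws)
    (hs : Sid cs reg fb 0 a b c ds J E D (kZ kq b ds D + wx * p)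
      (kZ kq b ds D + kR kq a b c t + ws * p) (kI kq D J E) (kR kq a b c t + (ws - wx) * p))
    (hK : KFact reg fb p a b l q ds D (kZ kq b ds D + wx * p)
      (kZ kq b ds D + kR kq a b c t + ws * p) Nk Cl) (hA : Aux p a b ds D Cl) : False := by
  obtain ⟨c30, c11, c12, c21, c22, c03⟩ := hC
  rcases lt_trichotomy E (2 * J) with h | h | h
  · have hs' : Sid cs reg fb 2 a b c ds J E D (kZ kq b ds D + wx * p)
      (kZ kq b ds D + kR kq a b c t + ws * p) (kI kq D J E) (kR kq a b c t + (ws - wx) * p) :=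
      hs.ej h
    rcases hA.uvw with ⟨N, R, I, hu⟩ | ⟨N, R, I, hu⟩ | ⟨⟨N, R, I, hu⟩, _⟩
    · exact killU W hc hq hkq hkn hkd c12 hs' hK hu
    · exact killV W hc hq hkq hkn hkd c22 hs' hK hu
    · exact killW W hc hq hkq hkn hkd c30 hs hK hu
  · have h1 := hEJ h
    have hs' : Sid cs reg fb 3 a b c ds J E D (kZ kq b ds D + wx * p)
      (kZ kq b ds D + kR kq a b c t + ws * p) (kI kq D J E) (kR kq a b c t + (ws - wx) * p) :=
      hs.ej ⟨h1, by omega⟩
    exact killN W hc hq hkq hkn hkd c03 hs' hK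
  · have hs' : Sid cs reg fb 1 a b c ds J E D (kZ kq b ds D + wx * p)
      (kZ kq b ds D + kR kq a b c t + ws * p) (kI kq D J E) (kR kq a b c t + (ws - wx) * p) :=
      hs.ej h
    rcases hA.uvw with ⟨N, R, I, hu⟩ | ⟨N, R, I, hu⟩ | ⟨⟨N, R, I, hu⟩, _⟩
    · exact killU W hc hq hkq hkn hkd c11 hs' hK hu
    · exact killV W hc hq hkq hkn hkd c21 hs' hK hu
    · exact killW W hc hq hkq hkn hkd c30 hs hK hu

end

end Helper12.TQ
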