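import Pool.Agent.Helper12.TT.Top3

set_option autoImplicit false
set_option linter.unusedSectionVars false
set_option linter.unusedVariables false

/-!
# The element of the T-lemma in the abstract worlds, `q < p + l`
-/

namespace Helper12.TQ

open Helper11.N1 Helper55.KE Helper25.FLT Helper25.KW Helper12.TT

/-- the element of the T-lemma for `q < p + l` -/
def TTQ (p a b c l q ds t : ℤ) (D : ℝ) (Cl : ℤ → ℤ → ℤ → ℤ → ℝ → Prop) : Prop :=
  2 * a ≤ b → (∃ (N X R : ℤ) (I : ℝ), Cl N 0 X R I ∧ 0 < N ∧ N < p ∧ P2 l p q N ∧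
    0 < I ∧ I < D ∧ |(X : ℝ) + ds * I| < a - |(c : ℝ)| ∧ |(c : ℝ)| < |(X : ℝ) + ds * I + R| ∧
    |(X : ℝ) + ds * I + R| < a) ∨
  (∃ WX WS : ℤ, |ds * D - b + WX * p| < a - |(c : ℝ)| ∧
    |(c : ℝ)| < |ds * D + c - t * a + WS * p| ∧ |ds * D + c - t * a + WS * p| < a)

section

variable {p q a b c : ℕ} [NeZero p] [NeZero q] {z : ZMod p → ZMod (p * q)} {i0 ρ : ZMod p}
  {θ : ZMod (p * q)} {δ l : ℕ} {k : ℤ} {s ds J : ℤ}

/-- from the exact position to the formal position, modulo `p` -/
theorem unc (h : SG p q a b c z i0 ρ θ δ l k s ds J) {N τ X R X0 R0 : ℤ} {I I0 : ℝ}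
    (hC : ClS p q c ρ θ s ds N 0 X R I)
    (hF : ClS p q c ρ θ s ds N τ X0 R0 I0) (hτ : |τ| ≤ 1) :
    ∃ WX WR : ℤ, (X : ℝ) = X0 + WX * p ∧ (R : ℝ) = R0 + WR * p ∧
      (∀ B r : ℤ, (B : ℝ) < X + ds * I + r → (B : ℝ) ≤ X + ds * I0 + r) ∧
      ∀ B r : ℤ, (X : ℝ) + ds * I + r < B → (X : ℝ) + ds * I0 + r ≤ B := by
  have hq := h.q0R
  have hX : (p : ℤ) ∣ X - X0 := by
    have h2 : (((X - X0) * q : ℤ) : ZMod (p * q)) = 0 := by
      have e1 := hC.1
      have e2 := hF.1
      push_cast at e1 e2 ⊢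
      linear_combination e1 - e2
    rw [ZMod.intCast_zmod_eq_zero_iff_dvd] at h2
    push_cast at h2
    exact (mul_dvd_mul_iff_right h.q0.ne').1 h2
  have hR : (p : ℤ) ∣ R - R0 := by
    have h2 : (((R - R0) : ℤ) : ZMod p) = 0 := by
      have e1 := hC.2.1
      have e2 := hF.2.1
      push_cast at e1 e2 ⊢
      linear_combination e1 - e2
    rwa [ZMod.intCast_zmod_eq_zero_iff_dvd] at h2
  obtain ⟨WX, hWX⟩ := hX
  obtain ⟨WR, hWR⟩ := hR
  have hXr : (X : ℝ) = X0 + WX * p := by
    have : X = X0 + WX * p := by linarith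
    rw [this]
    push_cast
    ring
  have hRr : (R : ℝ) = R0 + WR * p := by
    have : R = R0 + WR * p := by linarith
    rw [this]
    push_cast
    ring
  have h3 : (q : ℝ) * (X + ds * I) = q * (X + ds * I0) + (-(τ * (1 - 2 * (c : ℤ))) : ℤ) := by
    have a1 := hC.2.2
    have a2 := hF.2.2
    have hd2 := h.ds2R
    push_cast at a1 a2 ⊢
    linear_combination (ds : ℝ) * a1 - ds * a2 - (τ * (1 - 2 * (c : ℝ))) * hd2
  have he : |-(τ * (1 - 2 * (c : ℤ)))| ≤ 1 := by
    have := h.eab hτ 1 (Or.inl rfl)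
    rwa [abs_neg, ← one_mul (τ * (1 - 2 * (c : ℤ)))]
  have x0 : ∀ r : ℤ, (q : ℝ) * (X + ds * I0 + r) =
      ((X * q + ds * s * N + r * q + τ * (1 - 2 * (c : ℤ)) : ℤ) : ℝ) := by
    intro r
    have x1 := h.qx hC r
    push_cast at x1 h3 ⊢
    linear_combination x1 - h3
  refine ⟨WX, WR, hXr, hRr, ?_, ?_⟩
  · intro B r hB
    refine le_of_shift (q := q) (Z := X + ds * I + r)
        (x := X * q + ds * s * N + r * q + τ * (1 - 2 * (c : ℤ))) (y := q * B) hq he (x0 r) ?_ ?_ hB
    · push_cast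
      ring
    · linear_combination h3
  · intro B r hB
    have he' : |-(-(τ * (1 - 2 * (c : ℤ))))| ≤ 1 := by rwa [abs_neg]
    have := le_of_shift (q := q) (X := -((X : ℝ) + ds * I0 + r)) (Y := -B)
      (Z := -((X : ℝ) + ds * I + r))
      (x := -(X * q + ds * s * N + r * q + τ * (1 - 2 * (c : ℤ)))) (y := -(q * B)) hq he'
      (by
        have := x0 r
        push_cast at this ⊢
        linear_combination -this) (by push_cast; ring) (by
        push_cast at h3 ⊢
        linear_combination -h3) (by linarith)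
    linarith

theorem ttq (h : SG p q a b c z i0 ρ θ δ l k s ds J) (h2a : 2 * a < p) (h2b : 2 * b < p)
    (hka : |k| < a) {t : ℤ} (ht1 : t = 1 ∨ t = -1)
    (ht : ((t * a : ℤ) : ZMod p) = (q : ZMod p) * ρ)
    (hT : TTF p a b k l ds (DD p q s) (ClS p q c ρ θ s ds)) :
    TTQ p a b k l q ds t (DD p q s) (ClS p q c ρ θ s ds) := by
  intro hab
  obtain ⟨N, X, R, I, hC, N0, Np, Nl, Npl, I0, ID, hx, hs1, hs2⟩ := hT hab
  have hp0 : (0 : ℝ) < p := by exact_mod_cast Nat.pos_of_ne_zero (NeZero.ne p)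
  have hcq : ClS p q c ρ θ s ds q 0 (-ds * s) (t * a) s := h.ccq ht
  have hab' : 2 * (a : ℝ) ≤ b := by exact_mod_cast hab
  have h2b' : 2 * (b : ℝ) < p := by exact_mod_cast h2b
  have h2a' : 2 * (a : ℝ) < p := by exact_mod_cast h2a
  have hk0 : (0 : ℝ) ≤ |(k : ℝ)| := abs_nonneg _
  have hka' : |(k : ℝ)| < a := by exact_mod_cast hka
  have hak : ((a - |k| : ℤ) : ℝ) = a - |(k : ℝ)| := by push_cast; ring
  have hx' := hx
  rw [abs_lt] at hx'
  have hs1' := hs1
  have hs2' := hs2
  simp only [Int.cast_natCast] at hx' hs1' hs2'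
  by_cases h3 : N + l = q
  · exfalso
    have hF := h.cadd hcq (h.cneg h.ccl)
    have e0 : ((q : ℤ) + -(l : ℤ)) = N := by omega
    rw [e0] at hF
    obtain ⟨WX, WR, g1, g2, g3, g4⟩ := unc h hC hF (by norm_num)
    have g5 := g3 (-(a - |k|)) 0 (by
      push_cast at hak ⊢
      linarith [hx'.1])
    have g6 := g4 (a - |k|) 0 (by
      push_cast at hak ⊢
      linarith [hx'.2])
    rw [g1] at g5 g6
    have hd2 := h.ds2R
    push_cast at g5 g6
    have e1 : -(ds : ℝ) * s + -(-(b : ℝ) - ds * J) + WX * p + ds * (s + -J) + 0 = b + WX * p := by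
      ring
    rw [e1] at g5 g6
    have lt_of : ∀ m n : ℤ, (m : ℝ) * p < n * p → m < n := by
      intro m n hmn
      exact_mod_cast lt_of_mul_lt_mul_right hmn hp0.le
    have k1 : WX < 0 := lt_of _ _ (by push_cast; linarith)
    have k2 : -1 < WX := lt_of _ _ (by push_cast; linarith)
    omega
  by_cases h4 : N + q = p + l
  · right
    have hF := h.cadd (h.cadd h.ccp (h.cneg hcq)) h.ccl
    have e0 : ((p : ℤ) + -(q : ℤ) + l) = N := by omega
    rw [e0] at hF
    have e1 : ((0 + -(-ds * s) + (-(b : ℤ) - ds * J) : ℤ) : ℝ) +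
        ds * (DD p q s + -(s : ℝ) + (J : ℝ)) = ds * DD p q s - b := by
      push_cast
      ring
    obtain ⟨WX, WR, g1, g2, g3, g4⟩ := unc h hC hF (by norm_num)
    have hD : ∀ A : ℤ, (X : ℝ) + ds * (DD p q s + -(s : ℝ) + (J : ℝ)) ≠ A := by
      intro A hA
      rw [g1] at hA
      apply h.nD (A + b - WX * p)
      push_cast
      linarith
    have lo : ∀ B r : ℤ, (B : ℝ) < X + ds * I + r →
        (B : ℝ) < ds * DD p q s - b + WX * p + r := by
      intro B r hB
      have := lt_of_le_of_ne (g3 B r hB) (by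
        intro hA
        apply hD (B - r)
        push_cast
        have e2 : ((p * s : ℤ) / (q : ℝ) : ℝ) = DD p q s := rfl
        rw [e2] at hA
        linarith)
      rw [g1] at this
      have e2 : ((p * s : ℤ) / (q : ℝ) : ℝ) = DD p q s := rfl
      rw [e2] at this
      linarith
    have hi : ∀ B r : ℤ, (X : ℝ) + ds * I + r < B →
        ds * DD p q s - b + WX * p + r < (B : ℝ) := by
      intro B r hB
      have := lt_of_le_of_ne (g4 B r hB) (by
        intro hA
        apply hD (B - r)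
        push_cast
        have e2 : ((p * s : ℤ) / (q : ℝ) : ℝ) = DD p q s := rfl
        rw [e2] at hA
        linarith)
      rw [g1] at this
      have e2 : ((p * s : ℤ) / (q : ℝ) : ℝ) = DD p q s := rfl
      rw [e2] at this
      linarith
    push_cast at g2
    have eR : ds * DD p q s - b + WX * p + (R : ℝ) =
        ds * DD p q s + k - t * a + ((WX + WR : ℤ) : ℝ) * p := by
      rw [g2]
      push_cast
      ring
    refine ⟨WX, WX + WR, ?_, ?_, ?_⟩ <;> simp only [Int.cast_natCast]
    · rw [abs_lt]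
      constructor
      · have := lo (-(a - |k|)) 0 (by
          push_cast at hak ⊢
          linarith [hx'.1])
        push_cast at this hak
        linarith
      · have := hi (a - |k|) 0 (by
          push_cast at hak ⊢
          linarith [hx'.2])
        push_cast at this hak
        linarith
    · rw [← eR]
      rw [lt_abs] at hs1' ⊢
      rcases hs1' with h5 | h5
      · left
        have := lo |k| R (by push_cast; linarith)
        push_cast at this
        linarith
      · right
        have := hi (-|k|) R (by push_cast; linarith)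
        push_cast at this
        linarith
    · rw [← eR]
      rw [abs_lt] at hs2' ⊢
      constructor
      · have := lo (-a) R (by push_cast; linarith [hs2'.1])
        push_cast at this
        linarith
      · have := hi a R (by push_cast; linarith [hs2'.2])
        push_cast at this
        linarith
  · left
    exact ⟨N, X, R, I, hC, N0, Np, ⟨Nl, Npl, h3, h4⟩, I0, ID, hx, hs1, hs2⟩

end

end Helper12.TQ
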